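import Pool.Agent.NUF.P1R.Seq

/-!
P1R: levels, version with (R2) and (E2). The ball number lo l - 1 is inside l, l is inside the ball number hi l + 1.
-/

set_option autoImplicit false
set_option linter.unusedSectionVars false

namespace NUP1R

open Finset NUPZ

open scoped Classical

/-- a finite set of loops: lo l = 1 + (the number of the largest ball inside l), l is in the ball hi l + 1, not in hi l. -/
structure Sys {α : Type*} [PartialOrder α] (D : Finset α) (wt : α → ℝ) (lo hi : α → ℕ) (K : ℕ) (C c0 : ℝ) : Prop where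
  nn : ∀ l, 0 ≤ wt l
  one : ∀ l ∈ D, 1 ≤ lo l
  le : ∀ l ∈ D, lo l ≤ hi l + 1
  mlo : ∀ a ∈ D, ∀ b ∈ D, a < b → lo a ≤ lo b
  mhi : ∀ a ∈ D, ∀ b ∈ D, a < b → hi a ≤ hi b
  sep : ∀ a ∈ D, ∀ b ∈ D, hi a + 1 < lo b → a < b
  R2 : ∀ l ∈ D, ∑ a ∈ D.filter (fun a => a < l ∧ lo l ≤ hi a + 1), wt a ≤ C
  C4 : ∀ k, ∑ a ∈ D.filter (fun a => hi a = k), wt a ≤ C
  E2 : ∀ k < K, c0 ≤ ∑ a ∈ D.filter (fun a => lo a = k + 1 ∧ hi a = k), wt a

variable {α : Type*} [PartialOrder α] {D : Finset α} {wt : α → ℝ} {lo hi : α → ℕ} {K : ℕ} {C c0 : ℝ}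

lemma C_nn (hS : Sys D wt lo hi K C c0) : 0 ≤ C :=
  le_trans (Finset.sum_nonneg (fun l _ => hS.nn l)) (hS.C4 0)

lemma wx_nn (hS : Sys D wt lo hi K C c0) {x : ℝ} (hx : 0 ≤ x) (l : α) : 0 ≤ wx wt x l := mul_nonneg hx (hS.nn l)

lemma prod_exp (hS : Sys D wt lo hi K C c0) {x : ℝ} (hx : 0 ≤ x) (S : Finset α) :
    ∏ l ∈ S, (1 + wx wt x l) ≤ Real.exp (x * ∑ l ∈ S, wt l) := by
  rw [Finset.mul_sum, Real.exp_sum]
  apply Finset.prod_le_prod
  · intro l _
    have := wx_nn hS hx l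
    linarith
  · intro l _
    have := Real.add_one_le_exp (x * wt l)
    unfold wx
    linarith

/-- removal of a set of weight at most B. -/
lemma Z_rem (hS : Sys D wt lo hi K C c0) {x B : ℝ} (hx : 0 ≤ x) (A S : Finset α) (h : ∑ l ∈ S, wt l ≤ B) :
    Z (wx wt x) A ≤ Real.exp (x * B) * Z (wx wt x) (A \ S) := by
  refine (Z_remove (wx_nn hS hx) A S).trans ?_
  rw [mul_comm]
  apply mul_le_mul_of_nonneg_right _ (Z_pos (wx_nn hS hx) _).le
  refine (prod_exp hS hx _).trans ?_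
  apply Real.exp_le_exp.2
  exact mul_le_mul_of_nonneg_left h hx

lemma cl_clean (hS : Sys D wt lo hi K C c0) {B : Finset α} (hC : B ⊆ D) (b : ℕ) :
    ∀ l ∈ B, ¬ (lo l ≤ cl lo hi B b ∧ cl lo hi B b ≤ hi l) := by
  obtain ⟨h1, h2, h3⟩ := (cl_eq_iff (lo := lo) (hi := hi) (C := B) (b := b)).1 rfl
  by_cases h0 : cl lo hi B b = 0
  · intro l hl h
    have := hS.one l (hC hl)
    omega
  · exact h2 h0

lemma Lw_Up (hS : Sys D wt lo hi K C c0) (b a : ℕ) : ∀ l ∈ Lw D hi b, ∀ m ∈ Up D lo hi b a, l < m := by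
  intro l hl m hm
  rw [mem_Lw] at hl
  rw [mem_Up] at hm
  exact hS.sep l hl.1 m hm.1 (by omega)

/-- the fibre over a clean level. -/
lemma fibre (hS : Sys D wt lo hi K C c0) {R : Type*} [CommSemiring R] (w : α → R) {b' b a : ℕ} (h1 : b' ≤ b) (h2 : b < a) :
    ∑ C ∈ (chs (Lw D hi a)).filter (fun C => cl lo hi C b = b'), ∏ l ∈ C, w l = Z w (Lw D hi b') * H D lo hi w b' b a := by
  have hLU := Lw_Up hS b' a
  have hset : (chs (Lw D hi a)).filter (fun C => cl lo hi C b = b') =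
      (chs (Lw D hi b' ∪ Up D lo hi b' a)).filter (fun C => cov lo hi (C ∩ Up D lo hi b' a) b' b) := by
    ext C
    rw [Finset.mem_filter, Finset.mem_filter, mem_chs, mem_chs]
    constructor
    · rintro ⟨⟨h3, h4⟩, h5⟩
      have h6 : ∀ l ∈ C, l ∈ D ∧ hi l < a := fun l hl => mem_Lw.1 (h3 hl)
      have h7 := cl_clean hS (B := C) (fun l hl => (h6 l hl).1) b
      rw [h5] at h7
      have h8 : C ⊆ Lw D hi b' ∪ Up D lo hi b' a := by
        intro l hl
        have h9 := h7 l hl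
        rw [Finset.mem_union, mem_Lw, mem_Up]
        rcases Nat.lt_or_ge (hi l) b' with h11 | h11
        · exact Or.inl ⟨(h6 l hl).1, h11⟩
        · right
          refine ⟨(h6 l hl).1, ?_, (h6 l hl).2⟩
          by_contra h12
          exact h9 ⟨by omega, h11⟩
      refine ⟨⟨h8, h4⟩, ?_⟩
      intro c hc hcb
      have h9 := ((cl_eq_iff (lo := lo) (hi := hi) (C := C) (b := b)).1 h5).2.2 c hc hcb
      push Not at h9
      obtain ⟨l, hl, h10⟩ := h9
      refine ⟨l, ?_, h10⟩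
      rw [Finset.mem_inter]
      refine ⟨hl, ?_⟩
      have h11 := h8 hl
      rw [Finset.mem_union, mem_Lw] at h11
      rcases h11 with h11 | h11
      · omega
      · exact h11
    · rintro ⟨⟨h3, h4⟩, h5⟩
      refine ⟨⟨?_, h4⟩, ?_⟩
      · intro l hl
        have h6 := h3 hl
        rw [Finset.mem_union, mem_Lw, mem_Up] at h6
        rw [mem_Lw]
        rcases h6 with h6 | h6
        · exact ⟨h6.1, by omega⟩
        · exact ⟨h6.1, h6.2.2⟩
      · rw [cl_eq_iff]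
        refine ⟨h1, ?_, ?_⟩
        · intro _ l hl h7
          have h6 := h3 hl
          rw [Finset.mem_union, mem_Lw, mem_Up] at h6
          rcases h6 with h6 | h6 <;> omega
        · intro n hn hnb hcon
          obtain ⟨l, hl, h7⟩ := h5 n hn hnb
          exact hcon l (Finset.mem_inter.1 hl).1 h7
  rw [hset]
  unfold Z H
  rw [Finset.sum_filter, Finset.sum_filter,
    ← sum_union hLU (fun C => ∏ l ∈ C, w l) (fun C => if cov lo hi C b' b then ∏ l ∈ C, w l else 0)]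
  apply Finset.sum_congr rfl
  intro C hC
  rw [mem_chs] at hC
  split_ifs
  · exact prod_split (sep_disj hLU) hC.1 w
  · rw [mul_zero]

/-- the renewal identity. -/
lemma renewal (hS : Sys D wt lo hi K C c0) {R : Type*} [CommSemiring R] (w : α → R) {b a : ℕ} (h : b < a) :
    Z w (Lw D hi a) = ∑ b' ∈ range (b + 1), Z w (Lw D hi b') * H D lo hi w b' b a := by
  have h1 : Z w (Lw D hi a) = ∑ b' ∈ range (b + 1), ∑ C ∈ (chs (Lw D hi a)).filter (fun C => cl lo hi C b = b'),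
      ∏ l ∈ C, w l := by
    unfold Z
    rw [Finset.sum_fiberwise_of_maps_to]
    intro C _
    rw [Finset.mem_range]
    have := cl_le (lo := lo) (hi := hi) C b
    omega
  rw [h1]
  apply Finset.sum_congr rfl
  intro b' hb'
  rw [Finset.mem_range] at hb'
  exact fibre hS w (by omega) h

/-- the renewal identity with the distance. -/
lemma renewal_mu (hS : Sys D wt lo hi K C c0) (w : α → ℝ) (μ : ℝ) {b a : ℕ} (h : b < a) :
    ∑ C ∈ chs (Lw D hi a), (∏ l ∈ C, w l) * μ ^ (b - cl lo hi C b) =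
      ∑ b' ∈ range (b + 1), Z w (Lw D hi b') * H D lo hi w b' b a * μ ^ (b - b') := by
  have h1 : ∑ C ∈ chs (Lw D hi a), (∏ l ∈ C, w l) * μ ^ (b - cl lo hi C b) =
      ∑ b' ∈ range (b + 1), ∑ C ∈ (chs (Lw D hi a)).filter (fun C => cl lo hi C b = b'),
      (∏ l ∈ C, w l) * μ ^ (b - cl lo hi C b) := by
    rw [Finset.sum_fiberwise_of_maps_to]
    intro C _
    rw [Finset.mem_range]
    have := cl_le (lo := lo) (hi := hi) C b
    omega
  rw [h1]
  apply Finset.sum_congr rfl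
  intro b' hb'
  rw [Finset.mem_range] at hb'
  rw [← fibre hS w (by omega) h, Finset.sum_mul]
  apply Finset.sum_congr rfl
  intro C hC
  rw [Finset.mem_filter] at hC
  rw [hC.2]

/-- supermultiplicativity. -/
lemma super (hS : Sys D wt lo hi K C c0) {w : α → ℝ} (hw : ∀ l, 0 ≤ w l) {b a : ℕ} (h : b ≤ a) :
    Z w (Lw D hi b) * Z w (Up D lo hi b a) ≤ Z w (Lw D hi a) := by
  rw [← Z_union (Lw_Up hS b a)]
  apply Z_mono hw
  intro l hl
  rw [Finset.mem_union, mem_Lw, mem_Up] at hl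
  rw [mem_Lw]
  rcases hl with hl | hl
  · exact ⟨hl.1, by omega⟩
  · exact ⟨hl.1, hl.2.2⟩

/-- error of the blocks. -/
lemma H_close (hS : Sys D wt lo hi K C c0) {z : ℂ} {x t t0 : ℝ} (hx : 0 ≤ x) (hz : ‖z - x‖ ≤ t) (ht : t ≤ t0) (ht0 : 0 < t0)
    (b' b a : ℕ) : ‖H D lo hi (wz wt z) b' b a - ((H D lo hi (wx wt x) b' b a : ℝ) : ℂ)‖ ≤
      t / t0 * H D lo hi (wx wt (x + t0)) b' b a := by
  have ht' : 0 ≤ t := (norm_nonneg _).trans hz
  have hq : 0 ≤ t / t0 := div_nonneg ht' ht0.le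
  unfold H
  push_cast
  rw [← Finset.sum_sub_distrib, Finset.mul_sum]
  refine (norm_sum_le _ _).trans ?_
  apply Finset.sum_le_sum
  intro C _
  have e1 : (∏ l ∈ C, ((wx wt x l : ℝ) : ℂ)) = (x : ℂ) ^ C.card * ((∏ l ∈ C, wt l : ℝ) : ℂ) := by
    rw [← Complex.ofReal_prod, prod_wx]
    push_cast
    rfl
  rw [prod_wz, e1, ← sub_mul, norm_mul, prod_wx, Complex.norm_real,
    Real.norm_of_nonneg (Finset.prod_nonneg (fun l _ => hS.nn l)), ← mul_assoc]
  apply mul_le_mul_of_nonneg_right _ (Finset.prod_nonneg (fun l _ => hS.nn l))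
  refine (pow_close hx hz ht ht0 C.card).trans ?_
  apply mul_le_mul_of_nonneg_left _ hq
  have := pow_nonneg hx C.card
  linarith

/-- the loops between b and a where only hi counts. -/
lemma sum_hi (hS : Sys D wt lo hi K C c0) {S : Finset α} (hSD : S ⊆ D) {b a : ℕ}
    (h : ∀ l ∈ S, b ≤ hi l ∧ hi l < a) : ∑ l ∈ S, wt l ≤ C * ((a - b : ℕ) : ℝ) := by
  rw [← Finset.sum_fiberwise_of_maps_to (s := S) (t := Ico b a) (g := hi)]
  · calc ∑ c ∈ Ico b a, ∑ l ∈ S.filter (fun l => hi l = c), wt l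
        ≤ ∑ c ∈ Ico b a, C := by
          apply Finset.sum_le_sum
          intro c _
          refine le_trans ?_ (hS.C4 c)
          apply Finset.sum_le_sum_of_subset_of_nonneg
          · intro l hl
            rw [Finset.mem_filter] at hl ⊢
            exact ⟨hSD hl.1, hl.2⟩
          · exact fun l _ _ => hS.nn l
      _ = C * ((a - b : ℕ) : ℝ) := by
          rw [Finset.sum_const, Nat.card_Ico, nsmul_eq_mul, mul_comm]
  · intro l hl
    rw [Finset.mem_Ico]
    exact h l hl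

/-- the shell number k. -/
noncomputable def Sh (D : Finset α) (lo hi : α → ℕ) (k : ℕ) : Finset α := D.filter (fun a => lo a = k + 1 ∧ hi a = k)

lemma mem_Sh {l : α} {k : ℕ} : l ∈ Sh D lo hi k ↔ l ∈ D ∧ lo l = k + 1 ∧ hi l = k := by
  unfold Sh
  rw [Finset.mem_filter]

/-- the sum over chains of a set. -/
lemma Z_ge (hS : Sys D wt lo hi K C c0) {x : ℝ} (hx : 0 ≤ x) (S : Finset α) :
    1 + x * ∑ l ∈ S, wt l ≤ Z (wx wt x) S := by
  have hw := wx_nn hS hx
  have h1 : insert ∅ (S.image (fun l => ({l} : Finset α))) ⊆ chs S := by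
    intro C hC
    rw [Finset.mem_insert, Finset.mem_image] at hC
    rcases hC with rfl | ⟨l, hl, rfl⟩
    · exact empty_chs S
    · rw [mem_chs]
      refine ⟨Finset.singleton_subset_iff.2 hl, ?_⟩
      intro a ha b hb
      rw [Finset.mem_singleton] at ha hb
      exact Or.inr (Or.inl (ha.trans hb.symm))
  unfold Z
  refine le_trans ?_ (Finset.sum_le_sum_of_subset_of_nonneg h1 (fun C _ _ => prod_nn hw C))
  rw [Finset.sum_insert, Finset.sum_image, Finset.prod_empty, Finset.mul_sum]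
  · apply le_of_eq
    congr 1
    apply Finset.sum_congr rfl
    intro l _
    rw [Finset.prod_singleton]
    rfl
  · intro a _ b _ h
    exact Finset.singleton_injective h
  · rw [Finset.mem_image]
    rintro ⟨l, _, h⟩
    exact Finset.singleton_ne_empty l h

lemma Z_Sh (hS : Sys D wt lo hi K C c0) {x : ℝ} (hx : 0 ≤ x) {k : ℕ} (hk : k < K) :
    1 + x * c0 ≤ Z (wx wt x) (Sh D lo hi k) := by
  refine le_trans ?_ (Z_ge hS hx _)
  have := mul_le_mul_of_nonneg_left (hS.E2 k hk) hx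
  unfold Sh
  linarith

/-- growth below. -/
lemma f_succ (hS : Sys D wt lo hi K C c0) {x : ℝ} (hx : 0 ≤ x) {k : ℕ} (hk : k < K) :
    (1 + x * c0) * Z (wx wt x) (Lw D hi k) ≤ Z (wx wt x) (Lw D hi (k + 1)) := by
  have hw := wx_nn hS hx
  have hsep : ∀ a ∈ Lw D hi k, ∀ b ∈ Sh D lo hi k, a < b := by
    intro a ha b hb
    rw [mem_Lw] at ha
    rw [mem_Sh] at hb
    exact hS.sep a ha.1 b hb.1 (by omega)
  have h1 : Z (wx wt x) (Lw D hi k ∪ Sh D lo hi k) ≤ Z (wx wt x) (Lw D hi (k + 1)) := by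
    apply Z_mono hw
    intro l hl
    rw [Finset.mem_union, mem_Lw, mem_Sh] at hl
    rw [mem_Lw]
    rcases hl with hl | hl
    · exact ⟨hl.1, by omega⟩
    · exact ⟨hl.1, by omega⟩
  rw [Z_union hsep] at h1
  refine le_trans ?_ h1
  rw [mul_comm]
  exact mul_le_mul_of_nonneg_left (Z_Sh hS hx hk) (Z_pos hw _).le

lemma f_pow (hS : Sys D wt lo hi K C c0) {x : ℝ} (hx : 0 ≤ x) (hc : 0 ≤ c0) (j n : ℕ) (h : j + n ≤ K) :
    (1 + x * c0) ^ n * Z (wx wt x) (Lw D hi j) ≤ Z (wx wt x) (Lw D hi (j + n)) := by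
  induction n with
  | zero => rw [pow_zero, one_mul, add_zero]
  | succ n ih =>
    have h1 := f_succ hS hx (k := j + n) (by omega)
    have h2 := ih (by omega)
    have hq : 0 ≤ 1 + x * c0 := by
      have := mul_nonneg hx hc
      linarith
    calc (1 + x * c0) ^ (n + 1) * Z (wx wt x) (Lw D hi j) =
        (1 + x * c0) * ((1 + x * c0) ^ n * Z (wx wt x) (Lw D hi j)) := by ring
      _ ≤ (1 + x * c0) * Z (wx wt x) (Lw D hi (j + n)) := mul_le_mul_of_nonneg_left h2 hq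
      _ ≤ _ := h1

/-- growth above. -/
lemma Up_pow (hS : Sys D wt lo hi K C c0) {x : ℝ} (hx : 0 ≤ x) (hc : 0 ≤ c0) {a : ℕ} (ha : a ≤ K) (b n : ℕ)
    (h : b + n ≤ a) :
    (1 + x * c0) ^ n * Z (wx wt x) (Up D lo hi (b + n) a) ≤ Z (wx wt x) (Up D lo hi b a) := by
  induction n with
  | zero => rw [pow_zero, one_mul, add_zero]
  | succ n ih =>
    have hw := wx_nn hS hx
    have h2 := ih (by omega)
    have hq : 0 ≤ 1 + x * c0 := by
      have := mul_nonneg hx hc
      linarith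
    have hsep : ∀ l ∈ Sh D lo hi (b + n), ∀ m ∈ Up D lo hi (b + (n + 1)) a, l < m := by
      intro l hl m hm
      rw [mem_Sh] at hl
      rw [mem_Up] at hm
      exact hS.sep l hl.1 m hm.1 (by omega)
    have h1 : Z (wx wt x) (Sh D lo hi (b + n) ∪ Up D lo hi (b + (n + 1)) a) ≤ Z (wx wt x) (Up D lo hi (b + n) a) := by
      apply Z_mono hw
      intro l hl
      rw [Finset.mem_union, mem_Up, mem_Sh] at hl
      rw [mem_Up]
      rcases hl with hl | hl
      · exact ⟨hl.1, by omega, by omega⟩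
      · exact ⟨hl.1, by omega, hl.2.2⟩
    rw [Z_union hsep] at h1
    have h3 : (1 + x * c0) * Z (wx wt x) (Up D lo hi (b + (n + 1)) a) ≤ Z (wx wt x) (Up D lo hi (b + n) a) :=
      le_trans (mul_le_mul_of_nonneg_right (Z_Sh hS hx (by omega)) (Z_pos hw _).le) h1
    calc (1 + x * c0) ^ (n + 1) * Z (wx wt x) (Up D lo hi (b + (n + 1)) a) =
        (1 + x * c0) ^ n * ((1 + x * c0) * Z (wx wt x) (Up D lo hi (b + (n + 1)) a)) := by ring
      _ ≤ (1 + x * c0) ^ n * Z (wx wt x) (Up D lo hi (b + n) a) := mul_le_mul_of_nonneg_left h3 (pow_nonneg hq n)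
      _ ≤ _ := h2

/-- the inside of a loop. -/
lemma Z_in (hS : Sys D wt lo hi K C c0) {x : ℝ} (hx : 0 ≤ x) {l : α} (hl : l ∈ D) {A : Finset α} (hA : A ⊆ D) :
    Z (wx wt x) (A.filter (fun a => a < l)) ≤ Real.exp (x * C) * Z (wx wt x) (Lw D hi (lo l - 1)) := by
  refine (Z_rem hS hx _ (D.filter (fun a => a < l ∧ lo l ≤ hi a + 1)) (hS.R2 l hl)).trans ?_
  apply mul_le_mul_of_nonneg_left _ (Real.exp_pos _).le
  apply Z_mono (wx_nn hS hx)
  intro a ha
  rw [Finset.mem_sdiff, Finset.mem_filter, Finset.mem_filter] at ha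
  rw [mem_Lw]
  refine ⟨hA ha.1.1, ?_⟩
  by_contra h
  exact ha.2 ⟨hA ha.1.1, ha.1.2, by omega⟩

end NUP1R
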