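import Pool.Agent.NUF.P1R.Tail

/-!
P1R, abstract part: no zeros in a uniform neighbourhood of [x0, X], from (R2), the bound C per level and (E2).
-/

set_option autoImplicit false
set_option linter.unusedSectionVars false

namespace NUP1R

open Finset NUPZ

open scoped Classical

variable {α : Type*} [PartialOrder α] {D : Finset α} {wt : α → ℝ} {lo hi : α → ℕ} {K : ℕ} {C c0 : ℝ}

lemma rr_mul (hS : Sys D wt lo hi K C c0) {z : ℂ} {x : ℝ} (hx : 0 ≤ x) (b : ℕ) :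
    Z (wz wt z) (Lw D hi b) = ((Z (wx wt x) (Lw D hi b) : ℝ) : ℂ) * rr D hi wt z x b := by
  unfold rr
  rw [mul_div_cancel₀]
  exact_mod_cast (Z_pos (wx_nn hS hx) _).ne'

/-- the renewal data of a system. -/
lemma ren (hS : Sys D wt lo hi K C c0) (hc0 : 0 < c0) {x0 X0 M s μ κ t t0 x : ℝ} {z : ℂ} (h0 : 0 < x0) (hx0 : x0 ≤ x)
    (hxX : x + t0 ≤ X0) (ht0 : 0 < t0) (htt : t ≤ t0) (hz : ‖z - x‖ ≤ t)
    (hM : M * c0 = c0 + Real.exp (X0 * C) * (C * (1 + X0 * c0))) (hMp : 0 < M)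
    (hμ : 1 ≤ μ) (hs : 0 ≤ s) (hμs : μ - 1 = s * (x0 * c0)) (hs1 : s ≤ 1)
    (hs2 : 2 * (X0 * (Real.exp (X0 * C) * (C * s))) ≤ 1)
    (hs3 : 2 * (Real.exp (X0 * C) * (C * (1 + X0 * c0) * s)) ≤ c0)
    (hκt : Real.exp (t0 * C) ≤ κ) :
    Ren K (fun b => Z (wx wt x) (Lw D hi b)) (fun b => Z (wx wt (x + t0)) (Lw D hi b))
      (fun b' b a => H D lo hi (wx wt x) b' b a) (fun b' b a => H D lo hi (wx wt (x + t0)) b' b a)
      (fun b' b a => H D lo hi (wz wt z) b' b a) (rr D hi wt z x) M⁻¹ M 3 μ κ (t / t0) := by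
  have hC := C_nn hS
  have hx : 0 ≤ x := by linarith
  have hxt : 0 ≤ x + t0 := by linarith
  have hX0 : 0 ≤ X0 := by linarith
  have hw := wx_nn hS hx
  have hw0 := wx_nn hS hxt
  have hκp : 0 ≤ κ := (Real.exp_pos _).le.trans hκt
  -- bounds for one activity
  have hpow : ∀ y, x0 ≤ y → ∀ n : ℕ, μ ^ n - 1 ≤ s * (1 + y * c0) ^ n := by
    intro y hy n
    have hxc : 0 < x0 * c0 := mul_pos h0 hc0
    have h1 : μ ≤ 1 + x0 * c0 := by nlinarith
    have h2 := pow_excess hμ h1 n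
    have h3 : (1 + x0 * c0) ^ n ≤ (1 + y * c0) ^ n := by
      apply pow_le_pow_left₀ (by linarith)
      have := mul_le_mul_of_nonneg_right hy hc0.le
      linarith
    have h4 : (μ ^ n - 1) * (x0 * c0) ≤ (s * (1 + y * c0) ^ n) * (x0 * c0) := by
      calc (μ ^ n - 1) * (x0 * c0) = (μ ^ n - 1) * (1 + x0 * c0 - 1) := by ring
        _ ≤ (μ - 1) * ((1 + x0 * c0) ^ n - 1) := h2
        _ = s * (x0 * c0) * ((1 + x0 * c0) ^ n - 1) := by rw [hμs]
        _ ≤ s * (x0 * c0) * (1 + y * c0) ^ n := by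
            apply mul_le_mul_of_nonneg_left (by linarith)
            positivity
        _ = _ := by ring
    exact le_of_mul_le_mul_right h4 hxc
  have hb1 : ∀ y, 0 ≤ y → y ≤ X0 → 2 * (y * (Real.exp (y * C) * (C * s))) ≤ 1 := by
    intro y hy hyX
    refine le_trans ?_ hs2
    have h1 : Real.exp (y * C) ≤ Real.exp (X0 * C) := Real.exp_le_exp.2 (mul_le_mul_of_nonneg_right hyX hC)
    have h2 := (Real.exp_pos (y * C)).le
    have h3 := (Real.exp_pos (X0 * C)).le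
    gcongr
  have hb2 : ∀ y, 0 ≤ y → y ≤ X0 → 2 * (Real.exp (y * C) * (C * (1 + y * c0) * s)) ≤ c0 := by
    intro y hy hyX
    refine le_trans ?_ hs3
    have h1 : Real.exp (y * C) ≤ Real.exp (X0 * C) := Real.exp_le_exp.2 (mul_le_mul_of_nonneg_right hyX hC)
    have h2 := (Real.exp_pos (y * C)).le
    have h3 := (Real.exp_pos (X0 * C)).le
    gcongr
  have hb3 : ∀ y, 0 ≤ y → y ≤ X0 → c0 + Real.exp (y * C) * (C * (1 + y * c0)) ≤ M * c0 := by
    intro y hy hyX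
    rw [hM]
    have h1 : Real.exp (y * C) ≤ Real.exp (X0 * C) := Real.exp_le_exp.2 (mul_le_mul_of_nonneg_right hyX hC)
    have h2 := (Real.exp_pos (y * C)).le
    have h3 := (Real.exp_pos (X0 * C)).le
    gcongr
  have hxle : x ≤ X0 := by linarith
  refine ⟨?_, ?_, ?_, ?_, ?_, ?_, ?_, ?_, ?_, ?_, ?_, ?_⟩
  · exact fun b => Z_pos hw _
  · exact fun b => Z_pos hw0 _
  · exact fun b' b a => H_nn hw _ _ _
  · exact fun b' b a => H_nn hw0 _ _ _
  · exact fun a b hb _ => renewal hS (wx wt x) hb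
  · intro a b hb _
    show ((Z (wx wt x) (Lw D hi a) : ℝ) : ℂ) * rr D hi wt z x a = ∑ b' ∈ range (b + 1),
      ((Z (wx wt x) (Lw D hi b') : ℝ) : ℂ) * rr D hi wt z x b' * H D lo hi (wz wt z) b' b a
    rw [← rr_mul hS hx a, renewal hS (wz wt z) hb]
    apply Finset.sum_congr rfl
    intro b' _
    rw [rr_mul hS hx b']
  · intro a b hb ha
    have h1 := tail_top hS hc0 hx hμ hs (hpow x hx0) (hb1 x hx hxle) (hb2 x hx hxle) hb ha
    unfold TT at h1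
    rw [renewal_mu hS _ μ hb] at h1
    exact h1
  · intro a b hb ha
    have h1 := tail_top hS hc0 hxt hμ hs (hpow (x + t0) (by linarith)) (hb1 (x + t0) hxt hxX) (hb2 (x + t0) hxt hxX) hb ha
    unfold TT at h1
    rw [renewal_mu hS _ μ hb] at h1
    exact h1
  · intro a b hb ha
    show M⁻¹ * Z (wx wt x) (Lw D hi a) ≤ Z (wx wt x) (Lw D hi b) * H D lo hi (wx wt x) b b a
    rw [H_self]
    have h1 := qm hS hc0.le hx hb.le ha
    have h2 := hb3 x hx hxle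
    have p : 0 ≤ Z (wx wt x) (Lw D hi b) * Z (wx wt x) (Up D lo hi b a) :=
      mul_nonneg (Z_pos hw _).le (Z_pos hw _).le
    have h3 : c0 * Z (wx wt x) (Lw D hi a) ≤ c0 * (M * (Z (wx wt x) (Lw D hi b) * Z (wx wt x) (Up D lo hi b a))) := by
      calc _ ≤ _ := h1
        _ ≤ M * c0 * (Z (wx wt x) (Lw D hi b) * Z (wx wt x) (Up D lo hi b a)) := mul_le_mul_of_nonneg_right h2 p
        _ = _ := by ring
    have h4 := le_of_mul_le_mul_left h3 hc0
    calc M⁻¹ * Z (wx wt x) (Lw D hi a) ≤ M⁻¹ * (M * (Z (wx wt x) (Lw D hi b) * Z (wx wt x) (Up D lo hi b a))) :=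
          mul_le_mul_of_nonneg_left h4 (inv_nonneg.2 hMp.le)
      _ = _ := by rw [← mul_assoc, inv_mul_cancel₀ hMp.ne', one_mul]
  · intro a b' hb ha
    show Z (wx wt (x + t0)) (Lw D hi a) * Z (wx wt x) (Lw D hi b') ≤
      M * κ ^ (a - b') * (Z (wx wt (x + t0)) (Lw D hi b') * Z (wx wt x) (Lw D hi a))
    have h1 := ratio hS hc0 hx ht0.le hκt hb ha
    have h2 := hb3 (x + t0) hxt hxX
    have p : 0 ≤ κ ^ (a - b') * (Z (wx wt (x + t0)) (Lw D hi b') * Z (wx wt x) (Lw D hi a)) :=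
      mul_nonneg (pow_nonneg hκp _) (mul_nonneg (Z_pos hw0 _).le (Z_pos hw _).le)
    apply le_of_mul_le_mul_left _ hc0
    calc _ ≤ _ := h1
      _ = (c0 + Real.exp ((x + t0) * C) * (C * (1 + (x + t0) * c0))) *
          (κ ^ (a - b') * (Z (wx wt (x + t0)) (Lw D hi b') * Z (wx wt x) (Lw D hi a))) := by ring
      _ ≤ M * c0 * (κ ^ (a - b') * (Z (wx wt (x + t0)) (Lw D hi b') * Z (wx wt x) (Lw D hi a))) :=
          mul_le_mul_of_nonneg_right h2 p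
      _ = _ := by ring
  · exact fun b' b a => H_close hS hx hz htt ht0 b' b a
  · exact rr_zero D hi wt z x

/-- P1R: NO ZEROS IN A UNIFORM NEIGHBOURHOOD OF [x0, X]. -/
theorem zero_free {x0 X C c0 : ℝ} (h0 : 0 < x0) (hX : x0 ≤ X) (hC : 0 ≤ C) (hc0 : 0 < c0) : ∃ t κ : ℝ, 0 < t ∧ 1 < κ ∧
    ∀ (α : Type) [PartialOrder α] (D : Finset α) (wt : α → ℝ) (lo hi : α → ℕ) (K : ℕ), Sys D wt lo hi K C c0 →
      ∀ (x : ℝ) (z : ℂ), x0 ≤ x → x ≤ X → ‖z - x‖ ≤ t → ∀ k : ℕ, k ≤ K →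
        Z (wx wt x) (Lw D hi k) ≤ κ ^ k * ‖Z (wz wt z) (Lw D hi k)‖ ∧
        ‖Z (wz wt z) (Lw D hi k)‖ ≤ κ ^ k * Z (wx wt x) (Lw D hi k) := by
  obtain ⟨X0, hX0⟩ : ∃ X0, X0 = X + 1 := ⟨_, rfl⟩
  have hX0' : 0 < X0 := by linarith
  obtain ⟨G, hG⟩ : ∃ G, G = Real.exp (X0 * C) := ⟨_, rfl⟩
  have hGp : 0 < G := by rw [hG]; exact Real.exp_pos _
  obtain ⟨M, hMd⟩ : ∃ M, M = (c0 + G * (C * (1 + X0 * c0))) / c0 := ⟨_, rfl⟩
  have hM : M * c0 = c0 + G * (C * (1 + X0 * c0)) := by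
    rw [hMd]
    exact div_mul_cancel₀ _ hc0.ne'
  have hM1 : 1 ≤ M := by
    have : 0 ≤ G * (C * (1 + X0 * c0)) := by positivity
    have h1 : 1 * c0 ≤ M * c0 := by linarith
    exact le_of_mul_le_mul_right h1 hc0
  have hMp : 0 < M := by linarith
  obtain ⟨c, hc⟩ : ∃ c, c = M⁻¹ := ⟨_, rfl⟩
  have hcp : 0 < c := by rw [hc]; exact inv_pos.2 hMp
  have hc1 : c ≤ 1 := by rw [hc]; exact inv_le_one_of_one_le₀ hM1
  -- s
  obtain ⟨s, hs, hs1, hs2, hs3⟩ : ∃ s : ℝ, 0 < s ∧ s ≤ 1 ∧ 2 * (X0 * (G * (C * s))) ≤ 1 ∧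
      2 * (G * (C * (1 + X0 * c0) * s)) ≤ c0 := by
    obtain ⟨A, hA⟩ : ∃ A, A = 2 * (X0 * (G * C)) := ⟨_, rfl⟩
    obtain ⟨B, hB⟩ : ∃ B, B = 2 * (G * (C * (1 + X0 * c0))) := ⟨_, rfl⟩
    have hA0 : 0 ≤ A := by rw [hA]; positivity
    have hB0 : 0 ≤ B := by rw [hB]; positivity
    refine ⟨min 1 (min (1 / (A + 1)) (c0 / (B + 1))), ?_, min_le_left _ _, ?_, ?_⟩
    · exact lt_min one_pos (lt_min (by positivity) (by positivity))
    · have h1 : min 1 (min (1 / (A + 1)) (c0 / (B + 1))) ≤ 1 / (A + 1) := (min_le_right _ _).trans (min_le_left _ _)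
      calc 2 * (X0 * (G * (C * min 1 (min (1 / (A + 1)) (c0 / (B + 1)))))) =
          A * min 1 (min (1 / (A + 1)) (c0 / (B + 1))) := by rw [hA]; ring
        _ ≤ A * (1 / (A + 1)) := mul_le_mul_of_nonneg_left h1 hA0
        _ ≤ (A + 1) * (1 / (A + 1)) := by
            apply mul_le_mul_of_nonneg_right (by linarith)
            positivity
        _ = 1 := mul_one_div_cancel (by positivity)
    · have h1 : min 1 (min (1 / (A + 1)) (c0 / (B + 1))) ≤ c0 / (B + 1) := (min_le_right _ _).trans (min_le_right _ _)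
      calc 2 * (G * (C * (1 + X0 * c0) * min 1 (min (1 / (A + 1)) (c0 / (B + 1))))) =
          B * min 1 (min (1 / (A + 1)) (c0 / (B + 1))) := by rw [hB]; ring
        _ ≤ B * (c0 / (B + 1)) := mul_le_mul_of_nonneg_left h1 hB0
        _ ≤ (B + 1) * (c0 / (B + 1)) := by
            apply mul_le_mul_of_nonneg_right (by linarith)
            positivity
        _ = c0 := mul_div_cancel₀ _ (by positivity)
  -- mu
  obtain ⟨μ, hμd⟩ : ∃ μ, μ = 1 + s * (x0 * c0) := ⟨_, rfl⟩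
  have hμ : 1 < μ := by
    have : 0 < s * (x0 * c0) := by positivity
    linarith
  -- kappa
  obtain ⟨κ, hκ, hκμ, hκc⟩ : ∃ κ : ℝ, 1 < κ ∧ κ ^ 2 ≤ μ ∧ (κ ^ 2 - 1) * (3 - 1) ≤ (μ - 1) * (c / 2) := by
    have hp : 0 < (μ - 1) * (c / 4) := mul_pos (by linarith) (by linarith)
    refine ⟨Real.sqrt (1 + (μ - 1) * (c / 4)), ?_, ?_, ?_⟩
    · rw [Real.lt_sqrt (by norm_num)]
      linarith
    · rw [Real.sq_sqrt (by linarith)]
      nlinarith
    · rw [Real.sq_sqrt (by linarith)]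
      linarith
  have hκ0 : 0 < κ := by linarith
  -- delta
  obtain ⟨δ, hδ, hδκ⟩ : ∃ δ : ℝ, 0 < δ ∧ δ * κ ≤ 1 - κ⁻¹ := by
    refine ⟨(1 - κ⁻¹) / κ, ?_, ?_⟩
    · apply div_pos _ hκ0
      have := inv_lt_one_of_one_lt₀ hκ
      linarith
    · rw [div_mul_cancel₀ _ hκ0.ne']
  -- t0
  obtain ⟨t0, ht0, ht01, hκt⟩ : ∃ t0 : ℝ, 0 < t0 ∧ t0 ≤ 1 ∧ Real.exp (t0 * C) ≤ κ := by
    have hl : 0 < Real.log κ := Real.log_pos hκ
    refine ⟨min 1 (Real.log κ / (C + 1)), lt_min one_pos (by positivity), min_le_left _ _, ?_⟩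
    rw [← Real.exp_log hκ0]
    apply Real.exp_le_exp.2
    rw [Real.exp_log hκ0]
    calc min 1 (Real.log κ / (C + 1)) * C ≤ Real.log κ / (C + 1) * C :=
          mul_le_mul_of_nonneg_right (min_le_right _ _) hC
      _ ≤ Real.log κ / (C + 1) * (C + 1) := by
          apply mul_le_mul_of_nonneg_left (by linarith)
          positivity
      _ = Real.log κ := div_mul_cancel₀ _ (by positivity)
  -- t
  obtain ⟨t, ht, htt, hδt⟩ : ∃ t : ℝ, 0 < t ∧ t ≤ t0 ∧ t / t0 * (3 * M) ≤ δ * (c / 2) := by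
    have he : 0 < 3 * M := by positivity
    have hm : 0 < min 1 (δ * (c / 2) / (3 * M)) := lt_min one_pos (by positivity)
    refine ⟨t0 * min 1 (δ * (c / 2) / (3 * M)), by positivity, ?_, ?_⟩
    · have := min_le_left 1 (δ * (c / 2) / (3 * M))
      nlinarith
    · rw [mul_div_cancel_left₀ _ ht0.ne']
      calc min 1 (δ * (c / 2) / (3 * M)) * (3 * M)
          ≤ δ * (c / 2) / (3 * M) * (3 * M) := mul_le_mul_of_nonneg_right (min_le_right _ _) he.le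
        _ = δ * (c / 2) := div_mul_cancel₀ _ he.ne'
  refine ⟨t, κ, ht, hκ, ?_⟩
  intro α _ D wt lo hi K hS x z hx hxX hz k hk
  rw [hG] at hM hs2 hs3
  have hx0 : 0 ≤ x := by linarith
  have hR := ren hS hc0 h0 hx (by linarith : x + t0 ≤ X0) ht0 htt hz hM hMp hμ.le hs.le (by rw [hμd]; ring) hs1 hs2 hs3 hκt
  rw [← hc] at hR
  have h2 := two_sided hR hMp.le (div_nonneg ht.le ht0.le) hμ hκ hκμ hc1 hκc hδ hδκ hδt k hk
  have hf := Z_pos (wx_nn hS hx0) (Lw D hi k)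
  have e := rr_mul hS (z := z) hx0 k
  have en : ‖Z (wz wt z) (Lw D hi k)‖ = Z (wx wt x) (Lw D hi k) * ‖rr D hi wt z x k‖ := by
    rw [e, norm_mul, Complex.norm_real, Real.norm_of_nonneg hf.le]
  rw [en]
  constructor
  · calc Z (wx wt x) (Lw D hi k) = Z (wx wt x) (Lw D hi k) * 1 := (mul_one _).symm
      _ ≤ Z (wx wt x) (Lw D hi k) * (κ ^ k * ‖rr D hi wt z x k‖) := mul_le_mul_of_nonneg_left h2.1 hf.le
      _ = _ := by ring
  · rw [mul_comm]
    exact mul_le_mul_of_nonneg_right h2.2 hf.le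

end NUP1R
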