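import Pool.Agent.NUF.P1R.Base

/-!
P1R: decomposition at the largest element of a chain in a set.
-/

set_option autoImplicit false
set_option linter.unusedSectionVars false

namespace NUP1R

open Finset NUPZ

open scoped Classical

variable {α : Type*} [PartialOrder α]

/-- the decomposition at the largest element of C in S. -/
lemma sum_max {R : Type*} [CommSemiring R] (A S : Finset α) (F : Finset α → R) :
    ∑ C ∈ (chs A).filter (fun C => (C ∩ S).Nonempty), F C =
      ∑ l ∈ A ∩ S, ∑ C1 ∈ chs ((A.filter (fun a => l < a)) \ S), ∑ C2 ∈ chs (A.filter (fun a => a < l)),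
        F (insert l (C1 ∪ C2)) := by
  rcases isEmpty_or_nonempty α with hE | hE
  · have h1 : (chs A).filter (fun C => (C ∩ S).Nonempty) = ∅ := by
      rw [Finset.filter_eq_empty_iff]
      rintro C _ ⟨l, _⟩
      exact hE.false l
    have h2 : A ∩ S = ∅ := Finset.eq_empty_of_isEmpty _
    rw [h1, h2, Finset.sum_empty, Finset.sum_empty]
  have hmax : ∀ C ∈ (chs A).filter (fun C => (C ∩ S).Nonempty), ∃ l ∈ C ∩ S, ∀ a ∈ C ∩ S, a ≤ l := by
    intro C hC
    rw [Finset.mem_filter, mem_chs] at hC
    obtain ⟨l, hl⟩ := (C ∩ S).exists_maximal hC.2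
    refine ⟨l, hl.1, fun a ha => ?_⟩
    rcases hC.1.2 l (Finset.mem_inter.1 hl.1).1 a (Finset.mem_inter.1 ha).1 with h | h | h
    · exact hl.2 ha h.le
    · exact h.ge
    · exact h.le
  choose! m hm1 hm2 using hmax
  rw [← Finset.sum_fiberwise_of_maps_to (s := (chs A).filter (fun C => (C ∩ S).Nonempty)) (t := A ∩ S) (g := m)]
  swap
  · intro C hC
    have h1 := hm1 C hC
    rw [Finset.mem_filter, mem_chs] at hC
    rw [Finset.mem_inter] at h1 ⊢
    exact ⟨hC.1.1 h1.1, h1.2⟩
  apply Finset.sum_congr rfl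
  intro l hl
  rw [Finset.mem_inter] at hl
  rw [← Finset.sum_product']
  -- facts on the pairs
  have q1 : ∀ {C1 : Finset α}, C1 ∈ chs ((A.filter (fun a => l < a)) \ S) → ∀ a ∈ C1, (a ∈ A ∧ l < a) ∧ a ∉ S := by
    intro C1 h a ha
    have := (mem_chs.1 h).1 ha
    rwa [Finset.mem_sdiff, Finset.mem_filter] at this
  have q2 : ∀ {C2 : Finset α}, C2 ∈ chs (A.filter (fun a => a < l)) → ∀ a ∈ C2, a ∈ A ∧ a < l := by
    intro C2 h a ha
    have := (mem_chs.1 h).1 ha
    rwa [Finset.mem_filter] at this
  refine Finset.sum_nbij' (fun C => (C.filter (fun a => l < a), C.filter (fun a => a < l)))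
    (fun p => insert l (p.1 ∪ p.2)) ?_ ?_ ?_ ?_ ?_
  · intro C hC
    rw [Finset.mem_filter] at hC
    obtain ⟨hC1, hC2⟩ := hC
    have h2 := hm2 C hC1
    have h1 := hm1 C hC1
    rw [hC2] at h1 h2
    rw [Finset.mem_filter, mem_chs] at hC1
    rw [Finset.mem_product, mem_chs, mem_chs]
    refine ⟨⟨?_, hC1.1.2.mono (Finset.filter_subset _ _)⟩, Finset.filter_subset_filter _ hC1.1.1,
      hC1.1.2.mono (Finset.filter_subset _ _)⟩
    intro a ha
    simp only [Finset.mem_filter] at ha
    rw [Finset.mem_sdiff, Finset.mem_filter]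
    refine ⟨⟨hC1.1.1 ha.1, ha.2⟩, fun haS => ?_⟩
    exact absurd (h2 a (Finset.mem_inter.2 ⟨ha.1, haS⟩)) (not_le_of_gt ha.2)
  · rintro ⟨C1, C2⟩ hp
    rw [Finset.mem_product] at hp
    have r1 := q1 hp.1
    have r2 := q2 hp.2
    have p2 := (mem_chs.1 hp.1).2
    have p4 := (mem_chs.1 hp.2).2
    have hmem : insert l (C1 ∪ C2) ∈ (chs A).filter (fun C => (C ∩ S).Nonempty) := by
      rw [Finset.mem_filter, mem_chs]
      refine ⟨⟨?_, ?_⟩, ⟨l, Finset.mem_inter.2 ⟨Finset.mem_insert_self _ _, hl.2⟩⟩⟩
      · intro a ha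
        rw [Finset.mem_insert, Finset.mem_union] at ha
        rcases ha with rfl | ha | ha
        · exact hl.1
        · exact (r1 a ha).1.1
        · exact (r2 a ha).1
      · intro a ha b hb
        rw [Finset.mem_insert, Finset.mem_union] at ha hb
        rcases ha with rfl | ha | ha <;> rcases hb with rfl | hb | hb
        · exact Or.inr (Or.inl rfl)
        · exact Or.inl (r1 b hb).1.2
        · exact Or.inr (Or.inr (r2 b hb).2)
        · exact Or.inr (Or.inr (r1 a ha).1.2)
        · exact p2 a ha b hb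
        · exact Or.inr (Or.inr ((r2 b hb).2.trans (r1 a ha).1.2))
        · exact Or.inl (r2 a ha).2
        · exact Or.inl ((r2 a ha).2.trans (r1 b hb).1.2)
        · exact p4 a ha b hb
    rw [Finset.mem_filter]
    refine ⟨hmem, ?_⟩
    have h1 := hm1 _ hmem
    have h2 := hm2 _ hmem l (Finset.mem_inter.2 ⟨Finset.mem_insert_self _ _, hl.2⟩)
    rw [Finset.mem_inter, Finset.mem_insert, Finset.mem_union] at h1
    rcases h1.1 with h | h | h
    · exact h
    · exact absurd h1.2 (r1 _ h).2
    · exact absurd h2 (not_le_of_gt (r2 _ h).2)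
  · intro C hC
    rw [Finset.mem_filter] at hC
    obtain ⟨hC1, hC2⟩ := hC
    have h1 := hm1 C hC1
    rw [hC2, Finset.mem_inter] at h1
    rw [Finset.mem_filter, mem_chs] at hC1
    ext a
    simp only [Finset.mem_insert, Finset.mem_union, Finset.mem_filter]
    constructor
    · rintro (rfl | h | h)
      · exact h1.1
      · exact h.1
      · exact h.1
    · intro ha
      rcases hC1.1.2 a ha l h1.1 with h | h | h
      · exact Or.inr (Or.inr ⟨ha, h⟩)
      · exact Or.inl h
      · exact Or.inr (Or.inl ⟨ha, h⟩)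
  · rintro ⟨C1, C2⟩ hp
    rw [Finset.mem_product] at hp
    have r1 := q1 hp.1
    have r2 := q2 hp.2
    show ((insert l (C1 ∪ C2)).filter (fun a => l < a), (insert l (C1 ∪ C2)).filter (fun a => a < l)) = (C1, C2)
    rw [Prod.mk.injEq]
    constructor
    · ext a
      simp only [Finset.mem_insert, Finset.mem_union, Finset.mem_filter]
      constructor
      · rintro ⟨rfl | h | h, h3⟩
        · exact absurd h3 (lt_irrefl _)
        · exact h
        · exact absurd ((r2 a h).2.trans h3) (lt_irrefl _)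
      · exact fun h => ⟨Or.inr (Or.inl h), (r1 a h).1.2⟩
    · ext a
      simp only [Finset.mem_insert, Finset.mem_union, Finset.mem_filter]
      constructor
      · rintro ⟨rfl | h | h, h3⟩
        · exact absurd h3 (lt_irrefl _)
        · exact absurd ((r1 a h).1.2.trans h3) (lt_irrefl _)
        · exact h
      · exact fun h => ⟨Or.inr (Or.inr h), (r2 a h).2⟩
  · intro C hC
    rw [Finset.mem_filter] at hC
    obtain ⟨hC1, hC2⟩ := hC
    have h1 := hm1 C hC1
    rw [hC2, Finset.mem_inter] at h1
    rw [Finset.mem_filter, mem_chs] at hC1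
    congr 1
    ext a
    simp only [Finset.mem_insert, Finset.mem_union, Finset.mem_filter]
    constructor
    · intro ha
      rcases hC1.1.2 a ha l h1.1 with h | h | h
      · exact Or.inr (Or.inr ⟨ha, h⟩)
      · exact Or.inl h
      · exact Or.inr (Or.inl ⟨ha, h⟩)
    · rintro (rfl | h | h)
      · exact h1.1
      · exact h.1
      · exact h.1

end NUP1R
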