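import Pool.Agent.NUF.P1.Main

/-!
P1R: the renewal step for sequences (copy of the argument of P1, with general constants).
-/

set_option autoImplicit false
set_option linter.unusedSectionVars false

namespace NUP1R

open Finset NUPZ

/-- one step of the induction. -/
lemma step {f F hh HH : ℕ → ℝ} {Hz : ℕ → ℂ} {r : ℕ → ℂ} {a b : ℕ} {c E Q μ κ δ θ : ℝ}
    (fpos : ∀ b, 0 < f b) (Fpos : ∀ b, 0 < F b) (hnn : ∀ b', 0 ≤ hh b') (HHnn : ∀ b', 0 ≤ HH b')
    (hE : 0 ≤ E) (hq : 0 ≤ θ) (hμ : 1 < μ) (hκ : 1 < κ) (hκμ : κ ^ 2 ≤ μ) (hc1 : c ≤ 1)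
    (hκc : (κ ^ 2 - 1) * (Q - 1) ≤ (μ - 1) * (c / 2)) (hδ : 0 < δ) (hδt : θ * (Q * E) ≤ δ * (c / 2))
    (i1 : f a = ∑ b' ∈ range (b + 1), f b' * hh b')
    (i2 : (f a : ℂ) * r a = ∑ b' ∈ range (b + 1), (f b' : ℂ) * r b' * Hz b')
    (i3 : ∑ b' ∈ range (b + 1), f b' * hh b' * μ ^ (b - b') ≤ Q * f a)
    (i4 : ∑ b' ∈ range (b + 1), F b' * HH b' * μ ^ (b - b') ≤ Q * F a)
    (i5 : c * f a ≤ f b * hh b)
    (i6 : ∀ b' ≤ b, F a * f b' ≤ E * κ ^ (a - b') * (F b' * f a))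
    (i7 : ∀ b', ‖Hz b' - (hh b' : ℂ)‖ ≤ θ * HH b') (hb : b < a)
    (h1 : ∀ b' < b, ‖r b - r b'‖ ≤ δ * κ ^ (b - b') * ‖r b'‖)
    (h2 : ∀ b' ≤ b, ‖r b'‖ ≤ κ ^ (b - b') * ‖r b‖) :
    ‖r a - r b‖ ≤ δ * κ ^ (a - b) * ‖r b‖ := by
  -- the difference
  have key : (f a : ℂ) * (r a - r b) = ∑ b' ∈ range (b + 1),
      ((f b' * hh b' : ℝ) * (r b' - r b) + (f b' : ℂ) * (Hz b' - (hh b' : ℂ)) * r b') := by
    have e : (f a : ℂ) * r b = ∑ b' ∈ range (b + 1), ((f b' * hh b' : ℝ) : ℂ) * r b := by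
      rw [← Finset.sum_mul, i1]
      push_cast
      rfl
    rw [mul_sub, i2, e, ← Finset.sum_sub_distrib]
    apply Finset.sum_congr rfl
    intro b' _
    push_cast
    ring
  have hrb : 0 ≤ ‖r b‖ := norm_nonneg _
  have hκ2 : 1 ≤ κ ^ 2 := one_le_pow₀ hκ.le
  -- first sum
  have T1 : ∑ b' ∈ range (b + 1), f b' * hh b' * ‖r b' - r b‖ ≤ δ * ‖r b‖ * ((1 - c / 2) * f a) := by
    have e1 : ∀ b' ∈ range (b + 1), f b' * hh b' * ‖r b' - r b‖ * (μ - 1) ≤
        δ * ‖r b‖ * ((if b' = b then 0 else f b' * hh b') * (μ - 1) + (κ ^ 2 - 1) *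
          (f b' * hh b' * μ ^ (b - b') - f b' * hh b')) := by
      intro b' hb'
      rw [Finset.mem_range] at hb'
      have p := mul_nonneg (fpos b').le (hnn b')
      by_cases hbb : b' = b
      · rw [if_pos hbb, hbb, sub_self, norm_zero, mul_zero, zero_mul, Nat.sub_self, pow_zero]
        apply le_of_eq
        ring
      · rw [if_neg hbb]
        have h3 := h1 b' (by omega)
        have h4 := h2 b' (by omega)
        rw [norm_sub_rev] at h3
        have h5 : ‖r b' - r b‖ ≤ δ * ‖r b‖ * (κ ^ 2) ^ (b - b') := by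
          calc ‖r b' - r b‖ ≤ δ * κ ^ (b - b') * ‖r b'‖ := h3
            _ ≤ δ * κ ^ (b - b') * (κ ^ (b - b') * ‖r b‖) := by
                apply mul_le_mul_of_nonneg_left h4
                exact mul_nonneg hδ.le (pow_nonneg (by linarith) _)
            _ = δ * ‖r b‖ * (κ ^ 2) ^ (b - b') := by
                rw [← pow_mul, two_mul, pow_add]
                ring
        have h6 := pow_excess hκ2 hκμ (b - b')
        calc f b' * hh b' * ‖r b' - r b‖ * (μ - 1)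
            ≤ f b' * hh b' * (δ * ‖r b‖ * (κ ^ 2) ^ (b - b')) * (μ - 1) := by
              apply mul_le_mul_of_nonneg_right _ (by linarith)
              exact mul_le_mul_of_nonneg_left h5 p
          _ = δ * ‖r b‖ * (f b' * hh b' * ((μ - 1) + ((κ ^ 2) ^ (b - b') - 1) * (μ - 1))) := by ring
          _ ≤ δ * ‖r b‖ * (f b' * hh b' * ((μ - 1) + (κ ^ 2 - 1) * (μ ^ (b - b') - 1))) := by
              apply mul_le_mul_of_nonneg_left _ (mul_nonneg hδ.le hrb)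
              apply mul_le_mul_of_nonneg_left _ p
              linarith
          _ = _ := by ring
    have e2 := Finset.sum_le_sum e1
    rw [← Finset.sum_mul, ← Finset.mul_sum, Finset.sum_add_distrib, ← Finset.sum_mul, ← Finset.mul_sum,
      Finset.sum_sub_distrib, ← i1] at e2
    have e3 : ∑ b' ∈ range (b + 1), (if b' = b then 0 else f b' * hh b') = f a - f b * hh b := by
      rw [i1, Finset.sum_range_succ, Finset.sum_range_succ, if_pos rfl, add_zero, add_sub_cancel_right]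
      apply Finset.sum_congr rfl
      intro b' hb'
      rw [Finset.mem_range] at hb'
      rw [if_neg (by omega)]
    rw [e3] at e2
    have hμ1 : 0 < μ - 1 := by linarith
    have e4 : (f a - f b * hh b) * (μ - 1) + (κ ^ 2 - 1) *
        (∑ b' ∈ range (b + 1), f b' * hh b' * μ ^ (b - b') - f a) ≤ (1 - c / 2) * f a * (μ - 1) := by
      have h3 : (κ ^ 2 - 1) * (∑ b' ∈ range (b + 1), f b' * hh b' * μ ^ (b - b') - f a) ≤
          (μ - 1) * (c / 2) * f a := by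
        calc (κ ^ 2 - 1) * (∑ b' ∈ range (b + 1), f b' * hh b' * μ ^ (b - b') - f a) ≤
              (κ ^ 2 - 1) * ((Q - 1) * f a) := by
              apply mul_le_mul_of_nonneg_left _ (by linarith)
              linarith
          _ = ((κ ^ 2 - 1) * (Q - 1)) * f a := by ring
          _ ≤ _ := mul_le_mul_of_nonneg_right hκc (fpos a).le
      have h4 : (f a - f b * hh b) * (μ - 1) ≤ (f a - c * f a) * (μ - 1) := by
        apply mul_le_mul_of_nonneg_right _ hμ1.le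
        linarith
      calc _ ≤ (f a - c * f a) * (μ - 1) + (μ - 1) * (c / 2) * f a := add_le_add h4 h3
        _ = (1 - c / 2) * f a * (μ - 1) := by ring
    have e5 := e2.trans (mul_le_mul_of_nonneg_left e4 (mul_nonneg hδ.le hrb))
    apply le_of_mul_le_mul_right _ hμ1
    calc _ ≤ _ := e5
      _ = _ := by ring
  -- second sum
  have T2 : ∑ b' ∈ range (b + 1), f b' * (θ * HH b') * ‖r b'‖ ≤ δ * ‖r b‖ * (c / 2 * κ ^ (a - b) * f a) := by
    have e1 : ∀ b' ∈ range (b + 1), F a * (f b' * (θ * HH b') * ‖r b'‖) ≤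
        θ * E * κ ^ (a - b) * ‖r b‖ * f a * (F b' * HH b' * μ ^ (b - b')) := by
      intro b' hb'
      rw [Finset.mem_range] at hb'
      have h3 := i6 b' (by omega)
      have h4 := h2 b' (by omega)
      have h5 : (κ ^ 2) ^ (b - b') ≤ μ ^ (b - b') := pow_le_pow_left₀ (by linarith) hκμ _
      have p1 : 0 ≤ θ * HH b' := mul_nonneg hq (HHnn b')
      have p2 : 0 ≤ κ ^ (a - b') := pow_nonneg (by linarith) _
      have p3 : 0 ≤ κ ^ (b - b') := pow_nonneg (by linarith) _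
      have p5 := (fpos a).le
      have p6 := (Fpos b').le
      calc F a * (f b' * (θ * HH b') * ‖r b'‖) = (F a * f b') * (θ * HH b') * ‖r b'‖ := by ring
        _ ≤ (E * κ ^ (a - b') * (F b' * f a)) * (θ * HH b') * (κ ^ (b - b') * ‖r b‖) := by
            apply mul_le_mul _ h4 (norm_nonneg _)
            · positivity
            · exact mul_le_mul_of_nonneg_right h3 p1
        _ = θ * E * κ ^ (a - b) * ‖r b‖ * f a * (F b' * HH b' * (κ ^ 2) ^ (b - b')) := by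
            have e : κ ^ (a - b') = κ ^ (a - b) * κ ^ (b - b') := by
              rw [← pow_add]
              congr 1
              omega
            rw [e, ← pow_mul, two_mul, pow_add]
            ring
        _ ≤ _ := by
            apply mul_le_mul_of_nonneg_left
            · exact mul_le_mul_of_nonneg_left h5 (mul_nonneg p6 (HHnn b'))
            · have : 0 ≤ κ ^ (a - b) := pow_nonneg (by linarith) _
              positivity
    have e2 := Finset.sum_le_sum e1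
    rw [← Finset.mul_sum, ← Finset.mul_sum] at e2
    have pk : 0 ≤ κ ^ (a - b) := pow_nonneg (by linarith) _
    have e3 : θ * E * κ ^ (a - b) * ‖r b‖ * f a *
        ∑ b' ∈ range (b + 1), F b' * HH b' * μ ^ (b - b') ≤
        F a * (δ * ‖r b‖ * (c / 2 * κ ^ (a - b) * f a)) := by
      have p5 := (fpos a).le
      have p6 := (Fpos a).le
      calc _ ≤ θ * E * κ ^ (a - b) * ‖r b‖ * f a * (Q * F a) := by
            apply mul_le_mul_of_nonneg_left i4
            positivity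
        _ = (θ * (Q * E)) * (κ ^ (a - b) * ‖r b‖ * f a * F a) := by ring
        _ ≤ (δ * (c / 2)) * (κ ^ (a - b) * ‖r b‖ * f a * F a) := by
            apply mul_le_mul_of_nonneg_right hδt
            positivity
        _ = _ := by ring
    exact le_of_mul_le_mul_left (e2.trans e3) (Fpos a)
  -- conclusion
  have fin : f a * ‖r a - r b‖ ≤ δ * ‖r b‖ * ((1 - c / 2) * f a) + δ * ‖r b‖ * (c / 2 * κ ^ (a - b) * f a) := by
    have e1 : f a * ‖r a - r b‖ = ‖(f a : ℂ) * (r a - r b)‖ := by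
      rw [norm_mul, Complex.norm_real, Real.norm_of_nonneg (fpos a).le]
    rw [e1, key]
    refine (norm_sum_le _ _).trans ?_
    refine le_trans ?_ (add_le_add T1 T2)
    rw [← Finset.sum_add_distrib]
    apply Finset.sum_le_sum
    intro b' _
    refine (norm_add_le _ _).trans ?_
    apply add_le_add
    · rw [norm_mul, Complex.norm_real, Real.norm_of_nonneg (mul_nonneg (fpos b').le (hnn b'))]
    · rw [norm_mul, norm_mul, Complex.norm_real, Real.norm_of_nonneg (fpos b').le]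
      apply mul_le_mul_of_nonneg_right _ (norm_nonneg _)
      exact mul_le_mul_of_nonneg_left (i7 b') (fpos b').le
  have pk : 1 ≤ κ ^ (a - b) := one_le_pow₀ hκ.le
  apply le_of_mul_le_mul_left _ (fpos a)
  refine fin.trans ?_
  have e1 : (1 - c / 2) * f a ≤ (1 - c / 2) * κ ^ (a - b) * f a := by
    apply mul_le_mul_of_nonneg_right _ (fpos a).le
    have : 0 ≤ 1 - c / 2 := by linarith
    nlinarith
  calc δ * ‖r b‖ * ((1 - c / 2) * f a) + δ * ‖r b‖ * (c / 2 * κ ^ (a - b) * f a)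
      ≤ δ * ‖r b‖ * ((1 - c / 2) * κ ^ (a - b) * f a) + δ * ‖r b‖ * (c / 2 * κ ^ (a - b) * f a) := by
        have := mul_le_mul_of_nonneg_left e1 (mul_nonneg hδ.le hrb)
        linarith
    _ = f a * (δ * κ ^ (a - b) * ‖r b‖) := by ring


/-- the data for the induction. -/
structure Ren (K : ℕ) (f F : ℕ → ℝ) (hh HH : ℕ → ℕ → ℕ → ℝ) (Hz : ℕ → ℕ → ℕ → ℂ) (r : ℕ → ℂ)
    (c E Q μ κ θ : ℝ) : Prop where
  fpos : ∀ b, 0 < f b
  Fpos : ∀ b, 0 < F b
  hnn : ∀ b' b a, 0 ≤ hh b' b a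
  HHnn : ∀ b' b a, 0 ≤ HH b' b a
  i1 : ∀ a b, b < a → a ≤ K → f a = ∑ b' ∈ range (b + 1), f b' * hh b' b a
  i2 : ∀ a b, b < a → a ≤ K → (f a : ℂ) * r a = ∑ b' ∈ range (b + 1), (f b' : ℂ) * r b' * Hz b' b a
  i3 : ∀ a b, b < a → a ≤ K → ∑ b' ∈ range (b + 1), f b' * hh b' b a * μ ^ (b - b') ≤ Q * f a
  i4 : ∀ a b, b < a → a ≤ K → ∑ b' ∈ range (b + 1), F b' * HH b' b a * μ ^ (b - b') ≤ Q * F a
  i5 : ∀ a b, b < a → a ≤ K → c * f a ≤ f b * hh b b a
  i6 : ∀ a b', b' ≤ a → a ≤ K → F a * f b' ≤ E * κ ^ (a - b') * (F b' * f a)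
  i7 : ∀ b' b a, ‖Hz b' b a - (hh b' b a : ℂ)‖ ≤ θ * HH b' b a
  r0 : r 0 = 1

/-- the induction. -/
lemma claim {K : ℕ} {f F : ℕ → ℝ} {hh HH : ℕ → ℕ → ℕ → ℝ} {Hz : ℕ → ℕ → ℕ → ℂ} {r : ℕ → ℂ}
    {c E Q μ κ δ θ : ℝ} (hR : Ren K f F hh HH Hz r c E Q μ κ θ)
    (hE : 0 ≤ E) (hq : 0 ≤ θ) (hμ : 1 < μ) (hκ : 1 < κ) (hκμ : κ ^ 2 ≤ μ) (hc1 : c ≤ 1)
    (hκc : (κ ^ 2 - 1) * (Q - 1) ≤ (μ - 1) * (c / 2)) (hδ : 0 < δ) (hδκ : δ * κ ≤ 1 - κ⁻¹)
    (hδt : θ * (Q * E) ≤ δ * (c / 2)) (a : ℕ) (ha : a ≤ K) :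
    (∀ b < a, ‖r a - r b‖ ≤ δ * κ ^ (a - b) * ‖r b‖) ∧ ∀ b ≤ a, ‖r b‖ ≤ κ ^ (a - b) * ‖r a‖ := by
  induction a using Nat.strong_induction_on with
  | _ a ih =>
    have h1 : ∀ b < a, ‖r a - r b‖ ≤ δ * κ ^ (a - b) * ‖r b‖ := fun b hb =>
      step hR.fpos hR.Fpos (fun b' => hR.hnn b' b a) (fun b' => hR.HHnn b' b a) hE hq hμ hκ hκμ hc1 hκc hδ hδt
        (hR.i1 a b hb ha) (hR.i2 a b hb ha) (hR.i3 a b hb ha) (hR.i4 a b hb ha) (hR.i5 a b hb ha)
        (fun b' hb' => hR.i6 a b' (by omega) ha) (fun b' => hR.i7 b' b a) hb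
        (ih b hb (by omega)).1 (ih b hb (by omega)).2
    refine ⟨h1, fun b hb => ?_⟩
    rcases Nat.eq_or_lt_of_le hb with rfl | hb
    · rw [Nat.sub_self, pow_zero, one_mul]
    · obtain ⟨p, rfl⟩ : ∃ p, a = p + 1 := ⟨a - 1, by omega⟩
      have h2 := h1 p (by omega)
      have e : p + 1 - p = 1 := by omega
      rw [e, pow_one] at h2
      have h3 := (ih p (by omega) (by omega)).2 b (by omega)
      have hκ0 : 0 < κ := by linarith
      have h4 : ‖r p‖ ≤ κ * ‖r (p + 1)‖ := by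
        have h5 : ‖r p‖ ≤ ‖r (p + 1)‖ + ‖r (p + 1) - r p‖ := by
          have h6 : r p = r (p + 1) - (r (p + 1) - r p) := by ring
          calc ‖r p‖ = ‖r (p + 1) - (r (p + 1) - r p)‖ := by rw [← h6]
            _ ≤ _ := norm_sub_le _ _
        have h7 := norm_nonneg (r p)
        have h8 : κ⁻¹ * ‖r p‖ ≤ ‖r (p + 1)‖ := by nlinarith
        calc ‖r p‖ = κ * (κ⁻¹ * ‖r p‖) := by
              rw [← mul_assoc, mul_inv_cancel₀ hκ0.ne', one_mul]
          _ ≤ _ := mul_le_mul_of_nonneg_left h8 hκ0.le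
      have e2 : p + 1 - b = (p - b) + 1 := by omega
      rw [e2, pow_succ]
      calc ‖r b‖ ≤ κ ^ (p - b) * ‖r p‖ := h3
        _ ≤ κ ^ (p - b) * (κ * ‖r (p + 1)‖) := mul_le_mul_of_nonneg_left h4 (pow_nonneg hκ0.le _)
        _ = _ := by ring

/-- two-sided bounds. -/
lemma two_sided {K : ℕ} {f F : ℕ → ℝ} {hh HH : ℕ → ℕ → ℕ → ℝ} {Hz : ℕ → ℕ → ℕ → ℂ} {r : ℕ → ℂ}
    {c E Q μ κ δ θ : ℝ} (hR : Ren K f F hh HH Hz r c E Q μ κ θ)
    (hE : 0 ≤ E) (hq : 0 ≤ θ) (hμ : 1 < μ) (hκ : 1 < κ) (hκμ : κ ^ 2 ≤ μ) (hc1 : c ≤ 1)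
    (hκc : (κ ^ 2 - 1) * (Q - 1) ≤ (μ - 1) * (c / 2)) (hδ : 0 < δ) (hδκ : δ * κ ≤ 1 - κ⁻¹)
    (hδt : θ * (Q * E) ≤ δ * (c / 2)) (k : ℕ) (hk : k ≤ K) : 1 ≤ κ ^ k * ‖r k‖ ∧ ‖r k‖ ≤ κ ^ k := by
  have hcl := claim hR hE hq hμ hκ hκμ hc1 hκc hδ hδκ hδt
  have hκ0 : 0 < κ := by linarith
  constructor
  · have h1 := (hcl k hk).2 0 (Nat.zero_le k)
    rw [hR.r0, norm_one, Nat.sub_zero] at h1
    exact h1
  · induction k with
    | zero => rw [hR.r0, norm_one, pow_zero]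
    | succ k ih =>
      have h3 := (hcl (k + 1) hk).1 k (by omega)
      have ih := ih (by omega)
      have e1 : k + 1 - k = 1 := by omega
      rw [e1, pow_one] at h3
      have h4 : ‖r (k + 1)‖ ≤ ‖r k‖ + ‖r (k + 1) - r k‖ := by
        have h6 : r (k + 1) = r k + (r (k + 1) - r k) := by ring
        calc ‖r (k + 1)‖ = ‖r k + (r (k + 1) - r k)‖ := by rw [← h6]
          _ ≤ _ := norm_add_le _ _
      have h5 : 1 + δ * κ ≤ κ := by
        have h6 : 1 - κ⁻¹ ≤ κ - 1 := by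
          have h7 : 2 * κ ≤ κ * κ + 1 := by nlinarith [sq_nonneg (κ - 1)]
          have h8 : κ * κ⁻¹ = 1 := mul_inv_cancel₀ hκ0.ne'
          have h9 : κ * (1 - κ⁻¹) ≤ κ * (κ - 1) := by nlinarith
          exact le_of_mul_le_mul_left h9 hκ0
        linarith
      have h7 := norm_nonneg (r k)
      calc ‖r (k + 1)‖ ≤ (1 + δ * κ) * ‖r k‖ := by linarith
        _ ≤ κ * ‖r k‖ := mul_le_mul_of_nonneg_right h5 h7
        _ ≤ κ * κ ^ k := mul_le_mul_of_nonneg_left ih hκ0.le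
        _ = κ ^ (k + 1) := by ring

end NUP1R
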