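import Pool.Agent.NUF.P1R.Max

/-!
P1R: quasi-multiplicativity and exponential tails from (R2) and (E2).
-/

set_option autoImplicit false
set_option linter.unusedSectionVars false

namespace NUP1R

open Finset NUPZ

open scoped Classical

variable {α : Type*} [PartialOrder α] {D : Finset α} {wt : α → ℝ} {lo hi : α → ℕ} {K : ℕ} {C c0 : ℝ}

/-- the weight of the loops below a chain. -/
lemma g_le (hS : Sys D wt lo hi K C c0) {b a : ℕ} (hba : b ≤ a) {B : Finset α} (hB : B ∈ chs (Up D lo hi b a)) :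
    ∑ l ∈ (Lw D hi a ∩ Cr D lo hi b).filter (fun l => ∀ c ∈ B, l < c), wt l ≤
      C * ∑ n ∈ range (a - b + 1), (if ∀ c ∈ B, b + n < lo c then (1 : ℝ) else 0) := by
  have hC := C_nn hS
  rw [mem_chs] at hB
  have hBU : ∀ c ∈ B, c ∈ D ∧ b < lo c ∧ hi c < a := fun c hc => mem_Up.1 (hB.1 hc)
  have hcount : ∀ m, m ≤ a - b + 1 → (∀ n < m, ∀ c ∈ B, b + n < lo c) →
      (m : ℝ) ≤ ∑ n ∈ range (a - b + 1), (if ∀ c ∈ B, b + n < lo c then (1 : ℝ) else 0) := by
    intro m hm h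
    calc (m : ℝ) = ∑ n ∈ range m, (1 : ℝ) := by rw [Finset.sum_const, Finset.card_range, nsmul_eq_mul, mul_one]
      _ = ∑ n ∈ range m, (if ∀ c ∈ B, b + n < lo c then (1 : ℝ) else 0) := by
        apply Finset.sum_congr rfl
        intro n hn
        rw [if_pos (h n (Finset.mem_range.1 hn))]
      _ ≤ _ := by
        apply Finset.sum_le_sum_of_subset_of_nonneg
        · exact Finset.range_subset_range.2 hm
        · intro n _ _
          split_ifs
          · exact zero_le_one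
          · exact le_rfl
  rcases B.eq_empty_or_nonempty with rfl | hne
  · have h1 : ∑ l ∈ (Lw D hi a ∩ Cr D lo hi b).filter (fun l => ∀ c ∈ (∅ : Finset α), l < c), wt l ≤
        C * ((a - b : ℕ) : ℝ) := by
      apply sum_hi hS
      · intro l hl
        rw [Finset.mem_filter, Finset.mem_inter, mem_Lw] at hl
        exact hl.1.1.1
      · intro l hl
        rw [Finset.mem_filter, Finset.mem_inter, mem_Lw, mem_Cr] at hl
        exact ⟨hl.1.2.2.2, hl.1.1.2⟩
    refine h1.trans (mul_le_mul_of_nonneg_left ?_ hC)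
    exact hcount (a - b) (by omega) (fun n _ c hc => absurd hc (Finset.notMem_empty c))
  · obtain ⟨c, hc⟩ := B.exists_minimal hne
    have hmin : ∀ d ∈ B, c ≤ d := by
      intro d hd
      rcases hB.2 c hc.1 d hd with h | h | h
      · exact h.le
      · exact h.le
      · exact hc.2 hd h.le
    have hcU := hBU c hc.1
    have hlod : ∀ d ∈ B, lo c ≤ lo d := by
      intro d hd
      rcases eq_or_lt_of_le (hmin d hd) with h | h
      · rw [h]
      · exact hS.mlo c hcU.1 d (hBU d hd).1 h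
    have hle := hS.le c hcU.1
    -- split
    have h1 : ∑ l ∈ (Lw D hi a ∩ Cr D lo hi b).filter (fun l => ∀ c ∈ B, l < c), wt l ≤
        ∑ l ∈ D.filter (fun l => l < c ∧ lo c ≤ hi l + 1), wt l +
        ∑ l ∈ D.filter (fun l => b ≤ hi l ∧ hi l < lo c - 1), wt l := by
      have h2 : (Lw D hi a ∩ Cr D lo hi b).filter (fun l => ∀ c ∈ B, l < c) ⊆
          D.filter (fun l => l < c ∧ lo c ≤ hi l + 1) ∪ D.filter (fun l => b ≤ hi l ∧ hi l < lo c - 1) := by
        intro l hl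
        rw [Finset.mem_filter, Finset.mem_inter, mem_Lw, mem_Cr] at hl
        rw [Finset.mem_union, Finset.mem_filter, Finset.mem_filter]
        rcases Nat.lt_or_ge (hi l + 1) (lo c) with h3 | h3
        · exact Or.inr ⟨hl.1.1.1, hl.1.2.2.2, by omega⟩
        · exact Or.inl ⟨hl.1.1.1, hl.2 c hc.1, h3⟩
      refine (Finset.sum_le_sum_of_subset_of_nonneg h2 (fun l _ _ => hS.nn l)).trans ?_
      rw [← Finset.sum_union_inter]
      have : 0 ≤ ∑ i ∈ D.filter (fun l => l < c ∧ lo c ≤ hi l + 1) ∩ D.filter (fun l => b ≤ hi l ∧ hi l < lo c - 1), wt i :=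
        Finset.sum_nonneg (fun l _ => hS.nn l)
      linarith
    have h2 : ∑ l ∈ D.filter (fun l => b ≤ hi l ∧ hi l < lo c - 1), wt l ≤ C * ((lo c - 1 - b : ℕ) : ℝ) := by
      apply sum_hi hS (Finset.filter_subset _ _)
      intro l hl
      rw [Finset.mem_filter] at hl
      exact hl.2
    have h3 := hcount (lo c - b) (by omega) (by
      intro n hn d hd
      have := hlod d hd
      omega)
    have h4 : ((lo c - 1 - b : ℕ) : ℝ) + 1 ≤ ((lo c - b : ℕ) : ℝ) := by
      exact_mod_cast (show lo c - 1 - b + 1 ≤ lo c - b by omega)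
    have h5 := hS.R2 c hcU.1
    calc _ ≤ _ := h1
      _ ≤ C + C * ((lo c - 1 - b : ℕ) : ℝ) := add_le_add h5 h2
      _ = C * (((lo c - 1 - b : ℕ) : ℝ) + 1) := by ring
      _ ≤ C * ∑ n ∈ range (a - b + 1), (if ∀ c ∈ B, b + n < lo c then (1 : ℝ) else 0) :=
        mul_le_mul_of_nonneg_left (h4.trans h3) hC

/-- the sum over the crossing loops. -/
lemma W_le (hS : Sys D wt lo hi K C c0) (hc : 0 ≤ c0) {x : ℝ} (hx : 0 ≤ x) {b a : ℕ} (hba : b ≤ a) (ha : a ≤ K) :
    x * c0 * ∑ l ∈ Lw D hi a ∩ Cr D lo hi b, wt l * Z (wx wt x) ((Up D lo hi b a).filter (fun c => l < c)) ≤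
      C * (1 + x * c0) * Z (wx wt x) (Up D lo hi b a) := by
  have hC := C_nn hS
  have hw := wx_nn hS hx
  have hq : 1 ≤ 1 + x * c0 := by
    have := mul_nonneg hx hc
    linarith
  have hU := Z_pos hw (Up D lo hi b a)
  -- exchange
  have h1 : ∑ l ∈ Lw D hi a ∩ Cr D lo hi b, wt l * Z (wx wt x) ((Up D lo hi b a).filter (fun c => l < c)) =
      ∑ B ∈ chs (Up D lo hi b a), (∏ c ∈ B, wx wt x c) *
        ∑ l ∈ (Lw D hi a ∩ Cr D lo hi b).filter (fun l => ∀ c ∈ B, l < c), wt l := by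
    have h2 : ∀ l ∈ Lw D hi a ∩ Cr D lo hi b, wt l * Z (wx wt x) ((Up D lo hi b a).filter (fun c => l < c)) =
        ∑ B ∈ chs (Up D lo hi b a), if ∀ c ∈ B, l < c then wt l * ∏ c ∈ B, wx wt x c else 0 := by
      intro l _
      unfold Z
      rw [Finset.mul_sum, ← Finset.sum_filter]
      apply Finset.sum_congr
      · ext B
        rw [Finset.mem_filter, mem_chs, mem_chs]
        constructor
        · rintro ⟨h3, h4⟩
          exact ⟨⟨h3.trans (Finset.filter_subset _ _), h4⟩, fun c hc => (Finset.mem_filter.1 (h3 hc)).2⟩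
        · rintro ⟨⟨h3, h4⟩, h5⟩
          exact ⟨fun c hc => Finset.mem_filter.2 ⟨h3 hc, h5 c hc⟩, h4⟩
      · intro _ _
        rfl
    rw [Finset.sum_congr rfl h2, Finset.sum_comm]
    apply Finset.sum_congr rfl
    intro B _
    rw [Finset.sum_filter, Finset.mul_sum]
    apply Finset.sum_congr rfl
    intro l _
    split_ifs
    · ring
    · ring
  rw [h1]
  have h2 : ∑ B ∈ chs (Up D lo hi b a), (∏ c ∈ B, wx wt x c) *
        ∑ l ∈ (Lw D hi a ∩ Cr D lo hi b).filter (fun l => ∀ c ∈ B, l < c), wt l ≤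
      C * ∑ n ∈ range (a - b + 1), Z (wx wt x) (Up D lo hi (b + n) a) := by
    calc _ ≤ ∑ B ∈ chs (Up D lo hi b a), (∏ c ∈ B, wx wt x c) *
          (C * ∑ n ∈ range (a - b + 1), (if ∀ c ∈ B, b + n < lo c then (1 : ℝ) else 0)) := by
          apply Finset.sum_le_sum
          intro B hB
          exact mul_le_mul_of_nonneg_left (g_le hS hba hB) (prod_nn hw B)
      _ = C * ∑ n ∈ range (a - b + 1), ∑ B ∈ chs (Up D lo hi b a),
            (if ∀ c ∈ B, b + n < lo c then ∏ c ∈ B, wx wt x c else 0) := by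
          rw [Finset.sum_comm, Finset.mul_sum]
          apply Finset.sum_congr rfl
          intro B _
          rw [Finset.mul_sum, Finset.mul_sum, Finset.mul_sum]
          apply Finset.sum_congr rfl
          intro n _
          split_ifs
          · ring
          · ring
      _ = _ := by
          congr 1
          apply Finset.sum_congr rfl
          intro n _
          unfold Z
          rw [← Finset.sum_filter]
          apply Finset.sum_congr
          · ext B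
            rw [Finset.mem_filter, mem_chs, mem_chs]
            constructor
            · rintro ⟨⟨h3, h4⟩, h5⟩
              refine ⟨fun c hc => ?_, h4⟩
              have := mem_Up.1 (h3 hc)
              exact mem_Up.2 ⟨this.1, h5 c hc, this.2.2⟩
            · rintro ⟨h3, h4⟩
              refine ⟨⟨fun c hc => ?_, h4⟩, fun c hc => (mem_Up.1 (h3 hc)).2.1⟩
              have := mem_Up.1 (h3 hc)
              exact mem_Up.2 ⟨this.1, by omega, this.2.2⟩
          · intro _ _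
            rfl
  have h3 : x * c0 * ∑ n ∈ range (a - b + 1), Z (wx wt x) (Up D lo hi (b + n) a) ≤
      (1 + x * c0) * Z (wx wt x) (Up D lo hi b a) := by
    obtain ⟨q, hqd⟩ : ∃ q, q = 1 + x * c0 := ⟨_, rfl⟩
    have hq0 : 0 < q := by rw [hqd]; linarith
    have h4 : ∀ n ∈ range (a - b + 1), Z (wx wt x) (Up D lo hi (b + n) a) ≤ Z (wx wt x) (Up D lo hi b a) * (q⁻¹) ^ n := by
      intro n hn
      rw [Finset.mem_range] at hn
      have h5 := Up_pow hS hx hc ha b n (by omega)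
      rw [← hqd] at h5
      rw [inv_pow, ← div_eq_mul_inv, le_div_iff₀ (pow_pos hq0 n), mul_comm]
      exact h5
    have h5 : x * c0 = q - 1 := by rw [hqd]; ring
    have h6 : (∑ n ∈ range (a - b + 1), (q⁻¹) ^ n) * (1 - q⁻¹) ≤ 1 := by
      rw [geom_sum_mul_neg]
      have : 0 ≤ (q⁻¹) ^ (a - b + 1) := pow_nonneg (inv_nonneg.2 hq0.le) _
      linarith
    have h7 : (q - 1) * ∑ n ∈ range (a - b + 1), (q⁻¹) ^ n ≤ q := by
      have e : (q - 1) * ∑ n ∈ range (a - b + 1), (q⁻¹) ^ n = q * ((∑ n ∈ range (a - b + 1), (q⁻¹) ^ n) * (1 - q⁻¹)) := by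
        have : q * q⁻¹ = 1 := mul_inv_cancel₀ hq0.ne'
        calc (q - 1) * ∑ n ∈ range (a - b + 1), (q⁻¹) ^ n = (q - q * q⁻¹) * ∑ n ∈ range (a - b + 1), (q⁻¹) ^ n := by
              rw [this]
          _ = _ := by ring
      rw [e]
      nlinarith
    have hq1 : 0 ≤ q - 1 := by rw [hqd]; linarith
    rw [← hqd, h5]
    calc (q - 1) * ∑ n ∈ range (a - b + 1), Z (wx wt x) (Up D lo hi (b + n) a) ≤
        (q - 1) * ∑ n ∈ range (a - b + 1), Z (wx wt x) (Up D lo hi b a) * (q⁻¹) ^ n :=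
          mul_le_mul_of_nonneg_left (Finset.sum_le_sum h4) hq1
      _ = Z (wx wt x) (Up D lo hi b a) * ((q - 1) * ∑ n ∈ range (a - b + 1), (q⁻¹) ^ n) := by
          rw [← Finset.mul_sum]
          ring
      _ ≤ Z (wx wt x) (Up D lo hi b a) * q := mul_le_mul_of_nonneg_left h7 hU.le
      _ = _ := by ring
  calc _ ≤ x * c0 * (C * ∑ n ∈ range (a - b + 1), Z (wx wt x) (Up D lo hi (b + n) a)) :=
        mul_le_mul_of_nonneg_left h2 (mul_nonneg hx hc)
    _ = C * (x * c0 * ∑ n ∈ range (a - b + 1), Z (wx wt x) (Up D lo hi (b + n) a)) := by ring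
    _ ≤ C * ((1 + x * c0) * Z (wx wt x) (Up D lo hi b a)) := mul_le_mul_of_nonneg_left h3 hC
    _ = _ := by ring

/-- the part without crossing loops. -/
lemma clean_eq (hS : Sys D wt lo hi K C c0) {R : Type*} [CommSemiring R] (w : α → R) {b a : ℕ} (h : b ≤ a) :
    Z w (Lw D hi a \ Cr D lo hi b) = Z w (Lw D hi b) * Z w (Up D lo hi b a) := by
  rw [← Z_union (Lw_Up hS b a)]
  congr 1
  ext l
  rw [Finset.mem_sdiff, mem_Lw, mem_Cr, Finset.mem_union, mem_Lw, mem_Up]
  constructor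
  · rintro ⟨⟨h1, h2⟩, h3⟩
    rcases Nat.lt_or_ge (hi l) b with h4 | h4
    · exact Or.inl ⟨h1, h4⟩
    · refine Or.inr ⟨h1, ?_, h2⟩
      by_contra h5
      exact h3 ⟨h1, by omega, h4⟩
  · rintro (⟨h1, h2⟩ | ⟨h1, h2, h3⟩)
    · exact ⟨⟨h1, by omega⟩, fun h3 => by omega⟩
    · exact ⟨⟨h1, h3⟩, fun h4 => by omega⟩

/-- chains that avoid S. -/
lemma avoid (A S : Finset α) : (chs A).filter (fun C => ¬ (C ∩ S).Nonempty) = chs (A \ S) := by
  ext C
  rw [Finset.mem_filter, mem_chs, mem_chs, Finset.not_nonempty_iff_eq_empty, ← Finset.disjoint_iff_inter_eq_empty,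
    Finset.subset_sdiff]
  tauto

/-- splitting of Z. -/
lemma Z_split {R : Type*} [CommSemiring R] (w : α → R) (A S : Finset α) :
    Z w A = Z w (A \ S) + ∑ l ∈ A ∩ S, w l * (Z w ((A.filter (fun a => l < a)) \ S) * Z w (A.filter (fun a => a < l))) := by
  have h1 : Z w A = ∑ C ∈ (chs A).filter (fun C => (C ∩ S).Nonempty), ∏ l ∈ C, w l +
      ∑ C ∈ (chs A).filter (fun C => ¬ (C ∩ S).Nonempty), ∏ l ∈ C, w l :=
    (Finset.sum_filter_add_sum_filter_not _ _ _).symm
  rw [h1, avoid, sum_max, add_comm]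
  congr 1
  apply Finset.sum_congr rfl
  intro l _
  unfold Z
  rw [Finset.sum_mul_sum, Finset.mul_sum]
  apply Finset.sum_congr rfl
  intro C1 h1
  rw [Finset.mul_sum]
  apply Finset.sum_congr rfl
  intro C2 h2
  rw [prod_ins w]
  · intro a ha
    have := (mem_chs.1 h1).1 ha
    rw [Finset.mem_sdiff, Finset.mem_filter] at this
    exact this.1.2
  · intro a ha
    have := (mem_chs.1 h2).1 ha
    rw [Finset.mem_filter] at this
    exact this.2

/-- quasi-multiplicativity. -/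
theorem qm (hS : Sys D wt lo hi K C c0) (hc : 0 ≤ c0) {x : ℝ} (hx : 0 ≤ x) {b a : ℕ} (hba : b ≤ a) (ha : a ≤ K) :
    c0 * Z (wx wt x) (Lw D hi a) ≤
      (c0 + Real.exp (x * C) * (C * (1 + x * c0))) * (Z (wx wt x) (Lw D hi b) * Z (wx wt x) (Up D lo hi b a)) := by
  have hC := C_nn hS
  have hw := wx_nn hS hx
  have hf := Z_pos hw (Lw D hi b)
  have h1 := Z_split (wx wt x) (Lw D hi a) (Cr D lo hi b)
  rw [clean_eq hS _ hba] at h1
  have h2 : ∑ l ∈ Lw D hi a ∩ Cr D lo hi b, wx wt x l * (Z (wx wt x) (((Lw D hi a).filter (fun a => l < a)) \ Cr D lo hi b) *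
      Z (wx wt x) ((Lw D hi a).filter (fun a => a < l))) ≤
      Real.exp (x * C) * Z (wx wt x) (Lw D hi b) * (x * ∑ l ∈ Lw D hi a ∩ Cr D lo hi b,
        wt l * Z (wx wt x) ((Up D lo hi b a).filter (fun c => l < c))) := by
    rw [Finset.mul_sum, Finset.mul_sum]
    apply Finset.sum_le_sum
    intro l hl
    rw [Finset.mem_inter, mem_Lw, mem_Cr] at hl
    have h3 : Z (wx wt x) (((Lw D hi a).filter (fun a => l < a)) \ Cr D lo hi b) ≤
        Z (wx wt x) ((Up D lo hi b a).filter (fun c => l < c)) := by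
      apply Z_mono hw
      intro c hc
      rw [Finset.mem_sdiff, Finset.mem_filter, mem_Lw, mem_Cr] at hc
      rw [Finset.mem_filter, mem_Up]
      have := hS.mhi l hl.1.1 c hc.1.1.1 hc.1.2
      refine ⟨⟨hc.1.1.1, ?_, hc.1.1.2⟩, hc.1.2⟩
      by_contra h4
      exact hc.2 ⟨hc.1.1.1, by omega, by omega⟩
    have h4 : Z (wx wt x) ((Lw D hi a).filter (fun a => a < l)) ≤ Real.exp (x * C) * Z (wx wt x) (Lw D hi b) := by
      refine (Z_in hS hx hl.1.1 (Lw_sub _ _ _)).trans ?_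
      apply mul_le_mul_of_nonneg_left _ (Real.exp_pos _).le
      apply Z_mono hw
      intro c hc
      rw [mem_Lw] at hc ⊢
      exact ⟨hc.1, by omega⟩
    have p1 := (Z_pos hw ((Lw D hi a).filter (fun a => a < l))).le
    have p2 := (Z_pos hw ((Up D lo hi b a).filter (fun c => l < c))).le
    calc wx wt x l * (Z (wx wt x) (((Lw D hi a).filter (fun a => l < a)) \ Cr D lo hi b) *
          Z (wx wt x) ((Lw D hi a).filter (fun a => a < l)))
        ≤ wx wt x l * (Z (wx wt x) ((Up D lo hi b a).filter (fun c => l < c)) *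
          (Real.exp (x * C) * Z (wx wt x) (Lw D hi b))) := by
          apply mul_le_mul_of_nonneg_left _ (hw l)
          exact mul_le_mul h3 h4 p1 p2
      _ = _ := by
          unfold wx
          ring
  have h3 := W_le hS hc hx hba ha
  have hE := Real.exp_pos (x * C)
  have h4 : c0 * ∑ l ∈ Lw D hi a ∩ Cr D lo hi b, wx wt x l * (Z (wx wt x) (((Lw D hi a).filter (fun a => l < a)) \ Cr D lo hi b) *
      Z (wx wt x) ((Lw D hi a).filter (fun a => a < l))) ≤
      Real.exp (x * C) * (C * (1 + x * c0)) * (Z (wx wt x) (Lw D hi b) * Z (wx wt x) (Up D lo hi b a)) := by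
    calc _ ≤ c0 * (Real.exp (x * C) * Z (wx wt x) (Lw D hi b) * (x * ∑ l ∈ Lw D hi a ∩ Cr D lo hi b,
        wt l * Z (wx wt x) ((Up D lo hi b a).filter (fun c => l < c)))) := mul_le_mul_of_nonneg_left h2 hc
      _ = Real.exp (x * C) * Z (wx wt x) (Lw D hi b) * (x * c0 * ∑ l ∈ Lw D hi a ∩ Cr D lo hi b,
        wt l * Z (wx wt x) ((Up D lo hi b a).filter (fun c => l < c))) := by ring
      _ ≤ Real.exp (x * C) * Z (wx wt x) (Lw D hi b) * (C * (1 + x * c0) * Z (wx wt x) (Up D lo hi b a)) :=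
        mul_le_mul_of_nonneg_left h3 (mul_nonneg hE.le hf.le)
      _ = _ := by ring
  rw [h1, mul_add]
  calc _ ≤ c0 * (Z (wx wt x) (Lw D hi b) * Z (wx wt x) (Up D lo hi b a)) +
      Real.exp (x * C) * (C * (1 + x * c0)) * (Z (wx wt x) (Lw D hi b) * Z (wx wt x) (Up D lo hi b a)) :=
        add_le_add le_rfl h4
    _ = _ := by ring

/-- the next clean level after a crossing loop. -/
lemma cl_insert (hS : Sys D wt lo hi K C c0) {b : ℕ} {l : α} (hl : l ∈ Cr D lo hi b) {C1 C2 : Finset α}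
    (h1 : ∀ a ∈ C1, a ∈ D ∧ l < a) : cl lo hi (insert l (C1 ∪ C2)) b = cl lo hi C2 (lo l - 1) := by
  rw [mem_Cr] at hl
  have h0 := hS.one l hl.1
  obtain ⟨h2, h3, h4⟩ := (cl_eq_iff (lo := lo) (hi := hi) (C := C2) (b := lo l - 1)).1 rfl
  rw [cl_eq_iff]
  refine ⟨by omega, ?_, ?_⟩
  · intro hm a ha
    rw [Finset.mem_insert, Finset.mem_union] at ha
    rcases ha with rfl | ha | ha
    · rintro ⟨h5, _⟩
      omega
    · have := hS.mlo l hl.1 a (h1 a ha).1 (h1 a ha).2
      rintro ⟨h5, _⟩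
      omega
    · exact h3 hm a ha
  · intro n hn hnb hcon
    rcases Nat.lt_or_ge n (lo l) with h5 | h5
    · apply h4 n hn (by omega)
      intro a ha
      exact hcon a (by rw [Finset.mem_insert, Finset.mem_union]; exact Or.inr (Or.inr ha))
    · exact hcon l (Finset.mem_insert_self _ _) ⟨h5, by omega⟩

/-- the moment. -/
noncomputable def TT (lo hi : α → ℕ) (w : α → ℝ) (μ : ℝ) (A : Finset α) (b : ℕ) : ℝ :=
  ∑ C ∈ chs A, (∏ l ∈ C, w l) * μ ^ (b - cl lo hi C b)

/-- splitting of the moment. -/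
lemma T_split (hS : Sys D wt lo hi K C c0) (w : α → ℝ) (μ : ℝ) {A : Finset α} (hA : A ⊆ D) (b : ℕ) :
    TT lo hi w μ A b = Z w (A \ Cr D lo hi b) + ∑ l ∈ A ∩ Cr D lo hi b,
      w l * (Z w ((A.filter (fun a => l < a)) \ Cr D lo hi b) *
        (μ ^ (b + 1 - lo l) * TT lo hi w μ (A.filter (fun a => a < l)) (lo l - 1))) := by
  have h1 : TT lo hi w μ A b = ∑ C ∈ (chs A).filter (fun C => (C ∩ Cr D lo hi b).Nonempty),
      (∏ l ∈ C, w l) * μ ^ (b - cl lo hi C b) +
      ∑ C ∈ (chs A).filter (fun C => ¬ (C ∩ Cr D lo hi b).Nonempty), (∏ l ∈ C, w l) * μ ^ (b - cl lo hi C b) :=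
    (Finset.sum_filter_add_sum_filter_not _ _ _).symm
  rw [h1, avoid, sum_max, add_comm]
  congr 1
  · unfold Z
    apply Finset.sum_congr rfl
    intro C hC
    rw [mem_chs, Finset.subset_sdiff] at hC
    have h2 : cl lo hi C b = b := by
      rw [cl_eq_iff]
      refine ⟨le_rfl, fun _ a ha h3 => ?_, fun n h3 h4 => by omega⟩
      exact (Finset.disjoint_left.1 hC.1.2 ha) (mem_Cr.2 ⟨hA (hC.1.1 ha), h3⟩)
    rw [h2, Nat.sub_self, pow_zero, mul_one]
  · apply Finset.sum_congr rfl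
    intro l hl
    rw [Finset.mem_inter] at hl
    have hlC := mem_Cr.1 hl.2
    have hl1 := hS.one l hlC.1
    unfold Z TT
    rw [Finset.mul_sum (s := chs (A.filter (fun a => a < l))), Finset.sum_mul_sum, Finset.mul_sum]
    apply Finset.sum_congr rfl
    intro C1 h1
    have r1 : ∀ a ∈ C1, a ∈ A ∧ l < a := by
      intro a ha
      have := (mem_chs.1 h1).1 ha
      rw [Finset.mem_sdiff, Finset.mem_filter] at this
      exact this.1
    rw [Finset.mul_sum]
    apply Finset.sum_congr rfl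
    intro C2 h2
    have r2 : ∀ a ∈ C2, a < l := by
      intro a ha
      have := (mem_chs.1 h2).1 ha
      rw [Finset.mem_filter] at this
      exact this.2
    rw [prod_ins w (fun a ha => (r1 a ha).2) r2, cl_insert hS hl.2 (fun a ha => ⟨hA (r1 a ha).1, (r1 a ha).2⟩)]
    have e2 := cl_le (lo := lo) (hi := hi) C2 (lo l - 1)
    have e3 : b - cl lo hi C2 (lo l - 1) = (b + 1 - lo l) + (lo l - 1 - cl lo hi C2 (lo l - 1)) := by omega
    rw [e3, pow_add]
    ring

/-- the tail inside a loop. -/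
theorem tail_in (hS : Sys D wt lo hi K C c0) (hc : 0 ≤ c0) {x μ s : ℝ} (hx : 0 ≤ x) (hμ : 1 ≤ μ) (hs : 0 ≤ s)
    (hμs : ∀ n : ℕ, μ ^ n - 1 ≤ s * (1 + x * c0) ^ n) (h2 : 2 * (x * (Real.exp (x * C) * (C * s))) ≤ 1) :
    ∀ k, k ≤ K → ∀ l ∈ D, lo l = k + 1 → TT lo hi (wx wt x) μ (D.filter (fun a => a < l)) k ≤
      2 * Z (wx wt x) (D.filter (fun a => a < l)) := by
  intro k
  induction k using Nat.strong_induction_on with
  | _ k ih =>
    intro hk l hl hlk
    have hC := C_nn hS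
    have hw := wx_nn hS hx
    obtain ⟨A, hA⟩ : ∃ A, A = D.filter (fun a => a < l) := ⟨_, rfl⟩
    have hAD : A ⊆ D := by rw [hA]; exact Finset.filter_subset _ _
    have hAm : ∀ a, a ∈ A ↔ a ∈ D ∧ a < l := fun a => by rw [hA, Finset.mem_filter]
    rw [← hA]
    rw [T_split hS _ μ hAD k]
    have e1 := Z_split (wx wt x) A (Cr D lo hi k)
    obtain ⟨Z1, hZ1⟩ : ∃ Z1, Z1 = Z (wx wt x) (A.filter (fun a => k < lo a)) := ⟨_, rfl⟩
    have hZ1p : 0 < Z1 := by rw [hZ1]; exact Z_pos hw _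
    have hfk := Z_pos hw (Lw D hi k)
    have hq : 0 < 1 + x * c0 := by
      have := mul_nonneg hx hc
      linarith
    -- lower bound of the clean part
    have hcl : Z (wx wt x) (Lw D hi k) * Z1 ≤ Z (wx wt x) (A \ Cr D lo hi k) := by
      rw [hZ1, ← Z_union]
      · apply Z_mono hw
        intro a ha
        rw [Finset.mem_union, mem_Lw, Finset.mem_filter] at ha
        rw [Finset.mem_sdiff, mem_Cr]
        rcases ha with ha | ha
        · exact ⟨(hAm a).2 ⟨ha.1, hS.sep a ha.1 l hl (by omega)⟩, fun h => by omega⟩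
        · exact ⟨ha.1, fun h => by omega⟩
      · intro a ha b hb
        rw [mem_Lw] at ha
        rw [Finset.mem_filter] at hb
        exact hS.sep a ha.1 b (hAD hb.1) (by omega)
    -- each term
    have hterm : ∀ l2 ∈ A ∩ Cr D lo hi k, wx wt x l2 * (Z (wx wt x) ((A.filter (fun a => l2 < a)) \ Cr D lo hi k) *
        (μ ^ (k + 1 - lo l2) * TT lo hi (wx wt x) μ (A.filter (fun a => a < l2)) (lo l2 - 1))) ≤
        2 * (wx wt x l2 * (Z (wx wt x) ((A.filter (fun a => l2 < a)) \ Cr D lo hi k) *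
          Z (wx wt x) (A.filter (fun a => a < l2)))) +
        2 * (Z1 * Z (wx wt x) (Lw D hi k) * (x * (Real.exp (x * C) * s))) * wt l2 := by
      intro l2 hl2
      rw [Finset.mem_inter, mem_Cr] at hl2
      have hl1 := hS.one l2 hl2.2.1
      have hlt := ((hAm l2).1 hl2.1).2
      have e2 : A.filter (fun a => a < l2) = D.filter (fun a => a < l2) := by
        ext a
        rw [Finset.mem_filter, Finset.mem_filter, hAm]
        constructor
        · exact fun h => ⟨h.1.1, h.2⟩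
        · exact fun h => ⟨⟨h.1, h.2.trans hlt⟩, h.2⟩
      have h3 := ih (lo l2 - 1) (by omega) (by omega) l2 hl2.2.1 (by omega)
      rw [e2]
      have h4 : Z (wx wt x) (D.filter (fun a => a < l2)) ≤ Real.exp (x * C) * Z (wx wt x) (Lw D hi (lo l2 - 1)) :=
        Z_in hS hx hl2.2.1 (Finset.Subset.refl D)
      have h5 := f_pow hS hx hc (lo l2 - 1) (k + 1 - lo l2) (by omega)
      have e3 : lo l2 - 1 + (k + 1 - lo l2) = k := by omega
      rw [e3] at h5
      obtain ⟨n, hn⟩ : ∃ n, n = k + 1 - lo l2 := ⟨_, rfl⟩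
      rw [← hn] at h5 ⊢
      obtain ⟨zi, hzi⟩ : ∃ zi, zi = Z (wx wt x) (D.filter (fun a => a < l2)) := ⟨_, rfl⟩
      obtain ⟨Y, hY⟩ : ∃ Y, Y = Z (wx wt x) ((A.filter (fun a => l2 < a)) \ Cr D lo hi k) := ⟨_, rfl⟩
      rw [← hzi] at h3 h4 ⊢
      rw [← hY]
      have hYp : 0 < Y := by rw [hY]; exact Z_pos hw _
      have hYZ : Y ≤ Z1 := by
        rw [hY, hZ1]
        apply Z_mono hw
        intro a ha
        rw [Finset.mem_sdiff, Finset.mem_filter, mem_Cr] at ha
        rw [Finset.mem_filter]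
        refine ⟨ha.1.1, ?_⟩
        have := hS.mhi l2 hl2.2.1 a (hAD ha.1.1) ha.1.2
        by_contra h6
        exact ha.2 ⟨hAD ha.1.1, by omega, by omega⟩
      have hzp : 0 < zi := by rw [hzi]; exact Z_pos hw _
      have hμn : 1 ≤ μ ^ n := one_le_pow₀ hμ
      have hμn0 : 0 ≤ μ ^ n - 1 := by linarith
      have hwl := hw l2
      have hwt := hS.nn l2
      -- the extra part
      have h6 : (μ ^ n - 1) * zi ≤ Real.exp (x * C) * s * Z (wx wt x) (Lw D hi k) := by
        have hE := (Real.exp_pos (x * C)).le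
        calc (μ ^ n - 1) * zi ≤ (s * (1 + x * c0) ^ n) * (Real.exp (x * C) * Z (wx wt x) (Lw D hi (lo l2 - 1))) :=
              mul_le_mul (hμs n) h4 hzp.le (by positivity)
          _ = Real.exp (x * C) * s * ((1 + x * c0) ^ n * Z (wx wt x) (Lw D hi (lo l2 - 1))) := by ring
          _ ≤ _ := mul_le_mul_of_nonneg_left h5 (by positivity)
      calc wx wt x l2 * (Y * (μ ^ n * TT lo hi (wx wt x) μ (D.filter (fun a => a < l2)) (lo l2 - 1)))
          ≤ wx wt x l2 * (Y * (μ ^ n * (2 * zi))) := by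
            apply mul_le_mul_of_nonneg_left _ hwl
            apply mul_le_mul_of_nonneg_left _ hYp.le
            exact mul_le_mul_of_nonneg_left h3 (by linarith)
        _ = 2 * (wx wt x l2 * (Y * zi)) + 2 * (wx wt x l2 * (Y * ((μ ^ n - 1) * zi))) := by ring
        _ ≤ 2 * (wx wt x l2 * (Y * zi)) + 2 * (wx wt x l2 * (Z1 * (Real.exp (x * C) * s * Z (wx wt x) (Lw D hi k)))) := by
            apply add_le_add le_rfl
            apply mul_le_mul_of_nonneg_left _ (by norm_num)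
            apply mul_le_mul_of_nonneg_left _ hwl
            exact mul_le_mul hYZ h6 (mul_nonneg hμn0 hzp.le) hZ1p.le
        _ = _ := by
            unfold wx
            ring
    have hsum := Finset.sum_le_sum hterm
    rw [Finset.sum_add_distrib, ← Finset.mul_sum, ← Finset.mul_sum] at hsum
    have hwR : ∑ l2 ∈ A ∩ Cr D lo hi k, wt l2 ≤ C := by
      refine le_trans (Finset.sum_le_sum_of_subset_of_nonneg ?_ (fun a _ _ => hS.nn a)) (hS.R2 l hl)
      intro a ha
      rw [Finset.mem_inter, mem_Cr, hAm] at ha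
      rw [Finset.mem_filter]
      exact ⟨ha.1.1, ha.1.2, by omega⟩
    have hext : 2 * (Z1 * Z (wx wt x) (Lw D hi k) * (x * (Real.exp (x * C) * s))) * ∑ l2 ∈ A ∩ Cr D lo hi k, wt l2 ≤
        Z (wx wt x) (A \ Cr D lo hi k) := by
      have hE := (Real.exp_pos (x * C)).le
      have hp : 0 ≤ 2 * (Z1 * Z (wx wt x) (Lw D hi k) * (x * (Real.exp (x * C) * s))) := by positivity
      calc _ ≤ 2 * (Z1 * Z (wx wt x) (Lw D hi k) * (x * (Real.exp (x * C) * s))) * C :=
            mul_le_mul_of_nonneg_left hwR hp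
        _ = (Z (wx wt x) (Lw D hi k) * Z1) * (2 * (x * (Real.exp (x * C) * (C * s)))) := by ring
        _ ≤ (Z (wx wt x) (Lw D hi k) * Z1) * 1 := mul_le_mul_of_nonneg_left h2 (by positivity)
        _ ≤ _ := by rw [mul_one]; exact hcl
    linarith

/-- the tail from above. -/
theorem tail_top (hS : Sys D wt lo hi K C c0) (hc : 0 < c0) {x μ s : ℝ} (hx : 0 ≤ x) (hμ : 1 ≤ μ) (hs : 0 ≤ s)
    (hμs : ∀ n : ℕ, μ ^ n - 1 ≤ s * (1 + x * c0) ^ n) (h2 : 2 * (x * (Real.exp (x * C) * (C * s))) ≤ 1)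
    (h3 : 2 * (Real.exp (x * C) * (C * (1 + x * c0) * s)) ≤ c0) {b a : ℕ} (hba : b < a) (ha : a ≤ K) :
    TT lo hi (wx wt x) μ (Lw D hi a) b ≤ 3 * Z (wx wt x) (Lw D hi a) := by
  have hC := C_nn hS
  have hw := wx_nn hS hx
  obtain ⟨A, hA⟩ : ∃ A, A = Lw D hi a := ⟨_, rfl⟩
  have hAD : A ⊆ D := by rw [hA]; exact Lw_sub _ _ _
  have hAm : ∀ c, c ∈ A ↔ c ∈ D ∧ hi c < a := fun c => by rw [hA, mem_Lw]
  have hWl := W_le hS hc.le hx hba.le ha
  have hsup := super hS hw hba.le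
  rw [← hA] at hWl hsup ⊢
  rw [T_split hS _ μ hAD b]
  have e1 := Z_split (wx wt x) A (Cr D lo hi b)
  have hfb := Z_pos hw (Lw D hi b)
  have hU := Z_pos hw (Up D lo hi b a)
  have hclp := Z_pos hw (A \ Cr D lo hi b)
  have hq : 0 < 1 + x * c0 := by
    have := mul_nonneg hx hc.le
    linarith
  have hE := (Real.exp_pos (x * C)).le
  have hterm : ∀ l2 ∈ A ∩ Cr D lo hi b, wx wt x l2 * (Z (wx wt x) ((A.filter (fun c => l2 < c)) \ Cr D lo hi b) *
      (μ ^ (b + 1 - lo l2) * TT lo hi (wx wt x) μ (A.filter (fun c => c < l2)) (lo l2 - 1))) ≤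
      2 * (wx wt x l2 * (Z (wx wt x) ((A.filter (fun c => l2 < c)) \ Cr D lo hi b) *
        Z (wx wt x) (A.filter (fun c => c < l2)))) +
      2 * (Z (wx wt x) (Lw D hi b) * (x * (Real.exp (x * C) * s))) *
        (wt l2 * Z (wx wt x) ((Up D lo hi b a).filter (fun c => l2 < c))) := by
    intro l2 hl2
    rw [Finset.mem_inter, mem_Cr] at hl2
    have hl1 := hS.one l2 hl2.2.1
    have hlt := ((hAm l2).1 hl2.1).2
    have e2 : A.filter (fun c => c < l2) = D.filter (fun c => c < l2) := by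
      ext c
      rw [Finset.mem_filter, Finset.mem_filter, hAm]
      constructor
      · exact fun h => ⟨h.1.1, h.2⟩
      · intro h
        have := hS.mhi c h.1 l2 hl2.2.1 h.2
        exact ⟨⟨h.1, by omega⟩, h.2⟩
    have h3 := tail_in hS hc.le hx hμ hs hμs h2 (lo l2 - 1) (by omega) l2 hl2.2.1 (by omega)
    rw [e2]
    have h4 : Z (wx wt x) (D.filter (fun a => a < l2)) ≤ Real.exp (x * C) * Z (wx wt x) (Lw D hi (lo l2 - 1)) :=
      Z_in hS hx hl2.2.1 (Finset.Subset.refl D)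
    have h5 := f_pow hS hx hc.le (lo l2 - 1) (b + 1 - lo l2) (by omega)
    have e3 : lo l2 - 1 + (b + 1 - lo l2) = b := by omega
    rw [e3] at h5
    obtain ⟨n, hn⟩ : ∃ n, n = b + 1 - lo l2 := ⟨_, rfl⟩
    rw [← hn] at h5 ⊢
    obtain ⟨zi, hzi⟩ : ∃ zi, zi = Z (wx wt x) (D.filter (fun a => a < l2)) := ⟨_, rfl⟩
    obtain ⟨Y, hY⟩ : ∃ Y, Y = Z (wx wt x) ((A.filter (fun c => l2 < c)) \ Cr D lo hi b) := ⟨_, rfl⟩
    obtain ⟨Y2, hY2⟩ : ∃ Y2, Y2 = Z (wx wt x) ((Up D lo hi b a).filter (fun c => l2 < c)) := ⟨_, rfl⟩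
    rw [← hzi] at h3 h4 ⊢
    rw [← hY, ← hY2]
    have hYp : 0 < Y := by rw [hY]; exact Z_pos hw _
    have hY2p : 0 < Y2 := by rw [hY2]; exact Z_pos hw _
    have hYZ : Y ≤ Y2 := by
      rw [hY, hY2]
      apply Z_mono hw
      intro c hc'
      rw [Finset.mem_sdiff, Finset.mem_filter, mem_Cr, hAm] at hc'
      rw [Finset.mem_filter, mem_Up]
      have := hS.mhi l2 hl2.2.1 c hc'.1.1.1 hc'.1.2
      refine ⟨⟨hc'.1.1.1, ?_, hc'.1.1.2⟩, hc'.1.2⟩
      by_contra h6
      exact hc'.2 ⟨hc'.1.1.1, by omega, by omega⟩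
    have hzp : 0 < zi := by rw [hzi]; exact Z_pos hw _
    have hμn : 1 ≤ μ ^ n := one_le_pow₀ hμ
    have hμn0 : 0 ≤ μ ^ n - 1 := by linarith
    have hwl := hw l2
    have h6 : (μ ^ n - 1) * zi ≤ Real.exp (x * C) * s * Z (wx wt x) (Lw D hi b) := by
      calc (μ ^ n - 1) * zi ≤ (s * (1 + x * c0) ^ n) * (Real.exp (x * C) * Z (wx wt x) (Lw D hi (lo l2 - 1))) :=
            mul_le_mul (hμs n) h4 hzp.le (by positivity)
        _ = Real.exp (x * C) * s * ((1 + x * c0) ^ n * Z (wx wt x) (Lw D hi (lo l2 - 1))) := by ring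
        _ ≤ _ := mul_le_mul_of_nonneg_left h5 (by positivity)
    calc wx wt x l2 * (Y * (μ ^ n * TT lo hi (wx wt x) μ (D.filter (fun a => a < l2)) (lo l2 - 1)))
        ≤ wx wt x l2 * (Y * (μ ^ n * (2 * zi))) := by
          apply mul_le_mul_of_nonneg_left _ hwl
          apply mul_le_mul_of_nonneg_left _ hYp.le
          exact mul_le_mul_of_nonneg_left h3 (by linarith)
      _ = 2 * (wx wt x l2 * (Y * zi)) + 2 * (wx wt x l2 * (Y * ((μ ^ n - 1) * zi))) := by ring
      _ ≤ 2 * (wx wt x l2 * (Y * zi)) + 2 * (wx wt x l2 * (Y2 * (Real.exp (x * C) * s * Z (wx wt x) (Lw D hi b)))) := by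
          apply add_le_add le_rfl
          apply mul_le_mul_of_nonneg_left _ (by norm_num)
          apply mul_le_mul_of_nonneg_left _ hwl
          exact mul_le_mul hYZ h6 (mul_nonneg hμn0 hzp.le) hY2p.le
      _ = _ := by
          unfold wx
          ring
  have hsum := Finset.sum_le_sum hterm
  rw [Finset.sum_add_distrib, ← Finset.mul_sum, ← Finset.mul_sum] at hsum
  obtain ⟨W, hW⟩ : ∃ W, W = ∑ l2 ∈ A ∩ Cr D lo hi b, wt l2 * Z (wx wt x) ((Up D lo hi b a).filter (fun c => l2 < c)) := ⟨_, rfl⟩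
  rw [← hW] at hsum hWl
  have hext : 2 * (Z (wx wt x) (Lw D hi b) * (x * (Real.exp (x * C) * s))) * W ≤ Z (wx wt x) A := by
    have h4 : c0 * (2 * (Z (wx wt x) (Lw D hi b) * (x * (Real.exp (x * C) * s))) * W) ≤ c0 * Z (wx wt x) A := by
      calc c0 * (2 * (Z (wx wt x) (Lw D hi b) * (x * (Real.exp (x * C) * s))) * W) =
          2 * (Z (wx wt x) (Lw D hi b) * (Real.exp (x * C) * s)) * (x * c0 * W) := by ring
        _ ≤ 2 * (Z (wx wt x) (Lw D hi b) * (Real.exp (x * C) * s)) * (C * (1 + x * c0) * Z (wx wt x) (Up D lo hi b a)) :=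
          mul_le_mul_of_nonneg_left hWl (by positivity)
        _ = (2 * (Real.exp (x * C) * (C * (1 + x * c0) * s))) * (Z (wx wt x) (Lw D hi b) * Z (wx wt x) (Up D lo hi b a)) := by
          ring
        _ ≤ c0 * (Z (wx wt x) (Lw D hi b) * Z (wx wt x) (Up D lo hi b a)) :=
          mul_le_mul_of_nonneg_right h3 (by positivity)
        _ ≤ _ := mul_le_mul_of_nonneg_left hsup hc.le
    exact le_of_mul_le_mul_left h4 hc
  linarith

/-- comparison of two real activities. -/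
lemma ratio (hS : Sys D wt lo hi K C c0) (hc : 0 < c0) {x t κ : ℝ} (hx : 0 ≤ x) (ht : 0 ≤ t)
    (hκ : Real.exp (t * C) ≤ κ) {b a : ℕ} (h : b ≤ a) (ha : a ≤ K) :
    c0 * (Z (wx wt (x + t)) (Lw D hi a) * Z (wx wt x) (Lw D hi b)) ≤
      (c0 + Real.exp ((x + t) * C) * (C * (1 + (x + t) * c0))) * κ ^ (a - b) *
        (Z (wx wt (x + t)) (Lw D hi b) * Z (wx wt x) (Lw D hi a)) := by
  have hC := C_nn hS
  have h1 := qm hS hc.le (x := x + t) (by linarith) h ha
  have h2 : Z (wx wt (x + t)) (Up D lo hi b a) ≤ Z (wx wt x) (Up D lo hi b a) * κ ^ (a - b) := by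
    rw [wx_add]
    refine (Z_add (wx_nn hS hx) (wx_nn hS ht) _).trans ?_
    apply mul_le_mul_of_nonneg_left _ (Z_pos (wx_nn hS hx) _).le
    refine (prod_exp hS ht _).trans ?_
    have h3 : ∑ l ∈ Up D lo hi b a, wt l ≤ C * ((a - b : ℕ) : ℝ) := by
      apply sum_hi hS
      · intro l hl
        exact (mem_Up.1 hl).1
      · intro l hl
        rw [mem_Up] at hl
        have := hS.le l hl.1
        exact ⟨by omega, hl.2.2⟩
    calc Real.exp (t * ∑ l ∈ Up D lo hi b a, wt l) ≤ Real.exp (((a - b : ℕ) : ℝ) * (t * C)) := by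
          apply Real.exp_le_exp.2
          have := mul_le_mul_of_nonneg_left h3 ht
          linarith
      _ = Real.exp (t * C) ^ (a - b) := Real.exp_nat_mul _ _
      _ ≤ κ ^ (a - b) := pow_le_pow_left₀ (Real.exp_pos _).le hκ _
  have h3 := super hS (wx_nn hS hx) h
  obtain ⟨M, hM⟩ : ∃ M, M = c0 + Real.exp ((x + t) * C) * (C * (1 + (x + t) * c0)) := ⟨_, rfl⟩
  have hMp : 0 ≤ M := by
    rw [hM]
    have := (Real.exp_pos ((x + t) * C)).le
    positivity
  rw [← hM] at h1 ⊢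
  have p0 := (Z_pos (wx_nn hS (x := x + t) (by linarith)) (Lw D hi b)).le
  have p1 := (Z_pos (wx_nn hS hx) (Lw D hi b)).le
  have p2 : 0 ≤ κ ^ (a - b) := pow_nonneg ((Real.exp_pos _).le.trans hκ) _
  calc c0 * (Z (wx wt (x + t)) (Lw D hi a) * Z (wx wt x) (Lw D hi b)) =
      (c0 * Z (wx wt (x + t)) (Lw D hi a)) * Z (wx wt x) (Lw D hi b) := by ring
    _ ≤ (M * (Z (wx wt (x + t)) (Lw D hi b) * Z (wx wt (x + t)) (Up D lo hi b a))) * Z (wx wt x) (Lw D hi b) :=
        mul_le_mul_of_nonneg_right h1 p1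
    _ ≤ (M * (Z (wx wt (x + t)) (Lw D hi b) * (Z (wx wt x) (Up D lo hi b a) * κ ^ (a - b)))) *
        Z (wx wt x) (Lw D hi b) := by
        apply mul_le_mul_of_nonneg_right _ p1
        apply mul_le_mul_of_nonneg_left _ hMp
        exact mul_le_mul_of_nonneg_left h2 p0
    _ = M * κ ^ (a - b) * (Z (wx wt (x + t)) (Lw D hi b) *
        (Z (wx wt x) (Lw D hi b) * Z (wx wt x) (Up D lo hi b a))) := by ring
    _ ≤ _ := by
        apply mul_le_mul_of_nonneg_left _ (mul_nonneg hMp p2)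
        exact mul_le_mul_of_nonneg_left h3 p0

end NUP1R
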